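import Pool.Agent.N110.NV.Stm

/-!
Classes of divisors and the closed cone of the classes of the effective divisors.
-/

set_option autoImplicit false
set_option linter.unusedSectionVars false

open FF Pool.Agent.W602.GT Pool.Agent.Y172 Pool.Agent.R887

namespace Pool.Agent.N110.NV

section

variable {K : Type} [Field K] [Algebra ℂ K] {N : ℕ} {y : Fin (N + 1) → K} {ρ : ℕ}
  {c : Place ℂ K → Fin ρ → ℚ}

/-- finite support on the prime divisors -/
def Fin0 (y : Fin (N + 1) → K) (D : Place ℂ K → ℚ) : Prop :=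
  {P : Place ℂ K | IsPrimeDivisor y P ∧ D P ≠ 0}.Finite

theorem Fin0.add {D D' : Place ℂ K → ℚ} (h : Fin0 y D) (h' : Fin0 y D') :
    Fin0 y (fun P => D P + D' P) := by
  refine (h.union h').subset ?_
  rintro P ⟨hP, h0⟩
  by_cases h1 : D P = 0
  · right
    refine ⟨hP, fun h2 => h0 ?_⟩
    change D P + D' P = 0
    rw [h1, h2, add_zero]
  · exact Or.inl ⟨hP, h1⟩

theorem Fin0.smul {D : Place ℂ K → ℚ} (h : Fin0 y D) (r : ℚ) : Fin0 y (fun P => r * D P) := by
  refine h.subset ?_
  rintro P ⟨hP, h0⟩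
  exact ⟨hP, right_ne_zero_of_mul h0⟩

theorem Fin0.sub {D D' : Place ℂ K → ℚ} (h : Fin0 y D) (h' : Fin0 y D') :
    Fin0 y (fun P => D P - D' P) := by
  refine (h.add (h'.smul (-1))).subset ?_
  rintro P ⟨hP, h0⟩
  refine ⟨hP, fun h1 => h0 ?_⟩
  change D P + -1 * D' P = 0 at h1
  change D P - D' P = 0
  linarith

theorem Fin0.sum {ι : Type*} (s : Finset ι) {D : ι → Place ℂ K → ℚ} (h : ∀ i ∈ s, Fin0 y (D i)) :
    Fin0 y (fun P => ∑ i ∈ s, D i P) := by
  classical
  induction s using Finset.induction_on with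
  | empty =>
    refine Set.finite_empty.subset ?_
    rintro P ⟨-, h0⟩
    exact h0 (by simp)
  | insert a s ha ih =>
    have h1 := (h a (Finset.mem_insert_self a s)).add
      (ih fun i hi => h i (Finset.mem_insert_of_mem hi))
    refine h1.subset ?_
    rintro P ⟨hP, h0⟩
    refine ⟨hP, ?_⟩
    change (∑ i ∈ insert a s, D i P) ≠ 0 at h0
    rwa [Finset.sum_insert ha] at h0

theorem supp_fin (c : Place ℂ K → Fin ρ → ℚ) {D : Place ℂ K → ℚ} (h : Fin0 y D) :
    ({P : Place ℂ K | IsPrimeDivisor y P} ∩ Function.support fun P => D P • c P).Finite := by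
  refine h.subset ?_
  rintro P ⟨hP, h0⟩
  refine ⟨hP, fun h1 => h0 ?_⟩
  change D P • c P = 0
  rw [h1, zero_smul]

theorem cls_add {D D' : Place ℂ K → ℚ} (h : Fin0 y D) (h' : Fin0 y D') :
    cls y c (fun P => D P + D' P) = cls y c D + cls y c D' := by
  unfold cls
  rw [← finsum_mem_add_distrib' (supp_fin c h) (supp_fin c h')]
  refine finsum_congr fun P => finsum_congr fun _ => ?_
  rw [add_smul]

theorem cls_smul (D : Place ℂ K → ℚ) (r : ℚ) :
    cls y c (fun P => r * D P) = r • cls y c D := by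
  unfold cls
  rw [smul_finsum]
  refine finsum_congr fun P => ?_
  rw [smul_finsum]
  refine finsum_congr fun _ => ?_
  rw [mul_smul]

theorem cls_congr {D D' : Place ℂ K → ℚ} (h : ∀ P, IsPrimeDivisor y P → D P = D' P) :
    cls y c D = cls y c D' := by
  unfold cls
  refine finsum_congr fun P => finsum_congr fun hP => ?_
  rw [h P hP]

theorem cls_sub {D D' : Place ℂ K → ℚ} (h : Fin0 y D) (h' : Fin0 y D') :
    cls y c (fun P => D P - D' P) = cls y c D - cls y c D' := by
  have h1 := cls_add (c := c) h (h'.smul (-1))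
  rw [cls_smul D'] at h1
  rw [sub_eq_add_neg]
  rw [neg_one_smul] at h1
  rw [← h1]
  refine cls_congr fun P _ => ?_
  ring

theorem cls_zero : cls y c (fun _ => 0) = 0 := by
  unfold cls
  refine finsum_mem_eq_zero_of_forall_eq_zero fun P _ => ?_
  rw [zero_smul]

theorem cls_sum {ι : Type*} (s : Finset ι) {D : ι → Place ℂ K → ℚ} (h : ∀ i ∈ s, Fin0 y (D i)) :
    cls y c (fun P => ∑ i ∈ s, D i P) = ∑ i ∈ s, cls y c (D i) := by
  classical
  induction s using Finset.induction_on with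
  | empty =>
    rw [Finset.sum_empty, ← cls_zero (y := y) (c := c)]
    refine cls_congr fun P _ => ?_
    simp
  | insert a s ha ih =>
    have h1 := cls_add (c := c) (h a (Finset.mem_insert_self a s))
      (Fin0.sum s fun i hi => h i (Finset.mem_insert_of_mem hi))
    rw [ih fun i hi => h i (Finset.mem_insert_of_mem hi)] at h1
    rw [Finset.sum_insert ha, ← h1]
    refine cls_congr fun P _ => ?_
    rw [Finset.sum_insert ha]

open scoped Classical in
theorem cls_single {P : Place ℂ K} (hP : IsPrimeDivisor y P) (a : ℚ) :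
    cls y c (fun Q => if Q = P then a else 0) = a • c P := by
  unfold cls
  have h1 : (∑ᶠ Q ∈ {Q : Place ℂ K | IsPrimeDivisor y Q}, (if Q = P then a else 0) • c Q) =
      ∑ᶠ Q ∈ ({P} : Set (Place ℂ K)), (if Q = P then a else 0) • c Q := by
    refine finsum_mem_inter_support_eq _ _ _ ?_
    ext Q
    constructor
    · rintro ⟨-, h0⟩
      refine ⟨?_, h0⟩
      by_contra h2
      apply h0
      change (if Q = P then a else 0) • c Q = 0
      rw [if_neg (fun h3 => h2 (Set.mem_singleton_iff.2 h3)), zero_smul]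
    · rintro ⟨h2, h0⟩
      refine ⟨?_, h0⟩
      rw [Set.mem_singleton_iff] at h2
      rw [h2]
      exact hP
  rw [h1, finsum_mem_singleton, if_pos rfl]

open scoped Classical in
theorem fin_single (P : Place ℂ K) (a : ℚ) : Fin0 y (fun Q => if Q = P then a else 0) := by
  refine (Set.finite_singleton P).subset ?_
  rintro Q ⟨-, h0⟩
  by_contra h1
  exact h0 (if_neg h1)

open scoped Classical in
/-- the class of a divisor with support in a finite set -/
theorem cls_finset {T : Finset (Place ℂ K)} (hT : ∀ P ∈ T, IsPrimeDivisor y P)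
    {D : Place ℂ K → ℚ} (hD : ∀ P, IsPrimeDivisor y P → P ∉ T → D P = 0) :
    cls y c D = ∑ P ∈ T, D P • c P := by
  have h1 : cls y c D = cls y c (fun Q => ∑ P ∈ T, if Q = P then D P else 0) := by
    refine cls_congr fun Q hQ => ?_
    rw [Finset.sum_ite_eq]
    by_cases h2 : Q ∈ T
    · rw [if_pos h2]
    · rw [if_neg h2, hD Q hQ h2]
  rw [h1, cls_sum T fun P _ => fin_single P (D P)]
  exact Finset.sum_congr rfl fun P hP => cls_single (hT P hP) _

/-- the classes of the effective divisors -/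
def effSet (y : Fin (N + 1) → K) (c : Place ℂ K → Fin ρ → ℚ) : Set (Fin ρ → ℝ) :=
  {z : Fin ρ → ℝ | ∃ D, Effective y D ∧ ∀ i, z i = cls y c D i}

/-- real vectors with rational coordinates -/
def toR (v : Fin ρ → ℚ) : Fin ρ → ℝ := fun i => ((v i : ℚ) : ℝ)

theorem toR_add (v w : Fin ρ → ℚ) : toR (v + w) = toR v + toR w := by
  funext i
  simp [toR]

theorem toR_sub (v w : Fin ρ → ℚ) : toR (v - w) = toR v - toR w := by
  funext i
  simp [toR]

theorem toR_smul (r : ℚ) (v : Fin ρ → ℚ) : toR (r • v) = (r : ℝ) • toR v := by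
  funext i
  simp [toR]

theorem toR_sum {ι : Type*} (s : Finset ι) (v : ι → Fin ρ → ℚ) :
    toR (∑ j ∈ s, v j) = ∑ j ∈ s, toR (v j) := by
  funext i
  simp [toR]

theorem eff_mem {D : Place ℂ K → ℚ} (hD : Effective y D) : toR (cls y c D) ∈ effSet y c :=
  ⟨D, hD, fun _ => rfl⟩

theorem eff_add {x z : Fin ρ → ℝ} (hx : x ∈ effSet y c) (hz : z ∈ effSet y c) :
    x + z ∈ effSet y c := by
  obtain ⟨D, hD, h1⟩ := hx
  obtain ⟨D', hD', h2⟩ := hz
  refine ⟨fun P => D P + D' P, ⟨fun P hP => add_nonneg (hD.1 P hP) (hD'.1 P hP), ?_⟩, fun i => ?_⟩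
  · exact Fin0.add (y := y) hD.2 hD'.2
  · rw [cls_add hD.2 hD'.2, Pi.add_apply, Pi.add_apply, h1, h2]
    push_cast
    rfl

theorem eff_smul {x : Fin ρ → ℝ} (hx : x ∈ effSet y c) {r : ℚ} (hr : 0 ≤ r) :
    (r : ℝ) • x ∈ effSet y c := by
  obtain ⟨D, hD, h1⟩ := hx
  refine ⟨fun P => r * D P, ⟨fun P hP => mul_nonneg hr (hD.1 P hP), ?_⟩, fun i => ?_⟩
  · exact Fin0.smul (y := y) hD.2 r
  · rw [cls_smul D, Pi.smul_apply, Pi.smul_apply, h1]
    simp

theorem clo_add {x z : Fin ρ → ℝ} (hx : x ∈ closure (effSet y c)) (hz : z ∈ closure (effSet y c)) :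
    x + z ∈ closure (effSet y c) :=
  map_mem_closure₂ continuous_add hx hz fun _ ha _ hb => eff_add ha hb

theorem clo_smul {x : Fin ρ → ℝ} (hx : x ∈ closure (effSet y c)) {r : ℝ} (hr : 0 ≤ r) :
    r • x ∈ closure (effSet y c) := by
  have h1 : r ∈ closure {s : ℝ | ∃ q : ℚ, 0 ≤ q ∧ s = q} := by
    rw [Metric.mem_closure_iff]
    intro ε hε
    obtain ⟨q, h2, h3⟩ := exists_rat_btwn (show r < r + ε by linarith)
    refine ⟨q, ⟨q, ?_, rfl⟩, ?_⟩
    · have : (0 : ℝ) ≤ q := by linarith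
      exact_mod_cast this
    · rw [Real.dist_eq, abs_lt]
      constructor <;> linarith
  exact map_mem_closure₂ (f := fun (a : ℝ) (b : Fin ρ → ℝ) => a • b) continuous_smul h1 hx
    fun a ha b hb => by
      obtain ⟨q, hq, rfl⟩ := ha
      exact eff_smul hb hq

end

end Pool.Agent.N110.NV
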