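import Pool.Agent.N110.NV.Stm

set_option autoImplicit false

/-!
# Project NV: closed salient cones and rational coefficients (LIM, RAT)
-/

namespace Pool.Agent.N110.NV

open Filter Topology

/-- In a closed convex cone without lines the norm of a sum controls the norms of the summands. -/
theorem salient_bound {ρ : ℕ} (C : Set (Fin ρ → ℝ)) (hC : IsClosed C)
    (hsmul : ∀ x ∈ C, ∀ r : ℝ, 0 ≤ r → r • x ∈ C) (hsal : ∀ x ∈ C, -x ∈ C → x = 0) :
    ∃ c : ℝ, 0 < c ∧ ∀ x ∈ C, ∀ y ∈ C, c * ‖x‖ ≤ ‖x + y‖ := by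
  classical
  by_cases hne : (C ∩ Metric.sphere 0 1).Nonempty
  · have hK : IsCompact (C ∩ Metric.sphere (0 : Fin ρ → ℝ) 1) :=
      (isCompact_sphere 0 1).inter_left hC
    obtain ⟨u, hu, hmin⟩ := hK.exists_isMinOn hne
      (f := fun x => Metric.infDist (-x) C)
      ((Metric.continuous_infDist_pt C).comp continuous_neg).continuousOn
    have hCne : C.Nonempty := ⟨u, hu.1⟩
    refine ⟨Metric.infDist (-u) C, ?_, ?_⟩
    · rw [← (hC.notMem_iff_infDist_pos hCne)]
      intro h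
      have h0 := hsal u hu.1 h
      have h1 := hu.2
      rw [h0] at h1
      simp at h1
    · intro x hx y hy
      by_cases hx0 : x = 0
      · simp [hx0]
      have hxn : 0 < ‖x‖ := norm_pos_iff.2 hx0
      have hxu : (‖x‖⁻¹) • x ∈ C ∩ Metric.sphere (0 : Fin ρ → ℝ) 1 := by
        refine ⟨hsmul x hx _ (by positivity), ?_⟩
        rw [mem_sphere_zero_iff_norm, norm_smul, norm_inv, norm_norm,
          inv_mul_cancel₀ hxn.ne']
      have h1 := hmin hxu
      have h2 : Metric.infDist (-((‖x‖⁻¹) • x)) C ≤ dist (-((‖x‖⁻¹) • x)) ((‖x‖⁻¹) • y) :=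
        Metric.infDist_le_dist_of_mem (hsmul y hy _ (by positivity))
      have h3 : dist (-((‖x‖⁻¹) • x)) ((‖x‖⁻¹) • y) = ‖x‖⁻¹ * ‖x + y‖ := by
        rw [dist_eq_norm, show -((‖x‖⁻¹) • x) - (‖x‖⁻¹) • y = (-(‖x‖⁻¹)) • (x + y) by
          rw [smul_add, neg_smul, neg_smul]; abel, norm_smul, norm_neg, norm_inv, norm_norm]
      have h4 : Metric.infDist (-u) C ≤ ‖x‖⁻¹ * ‖x + y‖ := (h1.trans h2).trans h3.le
      rw [← le_div_iff₀ hxn]
      rw [div_eq_inv_mul]
      exact h4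
  · refine ⟨1, one_pos, ?_⟩
    intro x hx y hy
    have hx0 : x = 0 := by
      by_contra hx0
      apply hne
      have hxn : 0 < ‖x‖ := norm_pos_iff.2 hx0
      refine ⟨(‖x‖⁻¹) • x, hsmul x hx _ (by positivity), ?_⟩
      rw [mem_sphere_zero_iff_norm, norm_smul, norm_inv, norm_norm, inv_mul_cancel₀ hxn.ne']
    simp [hx0]

theorem lim : S_LIM := by
  intro ρ C hC hadd hsmul hsal η hη ι _ b hb l h
  classical
  cases nonempty_fintype ι
  obtain ⟨c, hc, hcb⟩ := salient_bound C hC hsmul hsal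
  let Φ : (ι → ℝ) →ₗ[ℝ] (Fin ρ → ℝ) := Fintype.linearCombination ℝ b
  have hΦ : ∀ a : ι → ℝ, ∑ᶠ j, a j • b j = Φ a := by
    intro a
    rw [finsum_eq_sum_of_fintype]
    rfl
  have hinj : Function.Injective Φ := hb.fintypeLinearCombination_injective
  have hcl : IsClosedEmbedding Φ :=
    LinearMap.isClosedEmbedding_of_injective (LinearMap.ker_eq_bot.2 hinj)
  have horth : IsClosed {a : ι → ℝ | ∀ j, 0 ≤ a j} := by
    simp only [Set.ofPred_forall]
    exact isClosed_iInter fun j => isClosed_le continuous_const (continuous_apply j)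
  have himg : IsClosed (Φ '' {a : ι → ℝ | ∀ j, 0 ≤ a j}) := hcl.isClosedMap _ horth
  suffices hl : l ∈ Φ '' {a : ι → ℝ | ∀ j, 0 ≤ a j} by
    obtain ⟨a, ha, hl⟩ := hl
    exact ⟨a, ha, by rw [hΦ, hl]⟩
  rw [← himg.closure_eq, Metric.mem_closure_iff]
  intro δ hδ
  set M : ℝ := 1 + ‖η‖ + ‖η‖ / c with hM
  have hMpos : 0 < M := by positivity
  obtain ⟨s, hs0, hs1, s', hs'0, hs'1, a, ha, x, hx, hxs, hn⟩ := h (δ / (2 * M)) (by positivity)
  refine ⟨Φ a, ⟨a, ha, rfl⟩, ?_⟩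
  rw [hΦ] at hn
  have hxb : ‖x‖ ≤ s' * (‖η‖ / c) := by
    have h1 := hcb x hx _ hxs
    rw [add_sub_cancel, norm_smul, Real.norm_of_nonneg hs'0] at h1
    rw [← mul_div_assoc, le_div_iff₀ hc]
    linarith
  have h2 : l - Φ a = (l + s • η - Φ a - x) - s • η + x := by abel
  rw [dist_eq_norm, h2]
  have h3 : ‖(l + s • η - Φ a - x) - s • η + x‖ ≤ ‖l + s • η - Φ a - x‖ + ‖s • η‖ + ‖x‖ :=
    (norm_add_le _ _).trans (by gcongr; exact norm_sub_le _ _)
  have h4 : ‖s • η‖ ≤ (δ / (2 * M)) * ‖η‖ := by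
    rw [norm_smul, Real.norm_of_nonneg hs0]
    gcongr
  have h5 : ‖x‖ ≤ (δ / (2 * M)) * (‖η‖ / c) := hxb.trans (by gcongr)
  have h6 : δ / (2 * M) * M = δ / 2 := by field_simp
  calc ‖(l + s • η - Φ a - x) - s • η + x‖ ≤ _ := h3
    _ ≤ δ / (2 * M) + (δ / (2 * M)) * ‖η‖ + (δ / (2 * M)) * (‖η‖ / c) := by gcongr
    _ = δ / (2 * M) * M := by rw [hM]; ring
    _ = δ / 2 := h6
    _ < δ := by linarith

theorem rat : S_RAT := by
  intro ρ ι _ b hb
  classical
  have hind : LinearIndependent ℝ (fun j => fun i => ((b j i : ℚ) : ℝ)) := by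
    rw [Fintype.linearIndependent_iff]
    intro r hr j0
    by_contra hj
    obtain ⟨φ, hφ⟩ : ∃ φ : Module.Dual ℚ ℝ, φ (r j0) ≠ 0 := by
      by_contra hcon
      push Not at hcon
      exact hj ((Module.forall_dual_apply_eq_zero_iff ℚ (r j0)).1 hcon)
    have h1 : ∑ j, φ (r j) • b j = 0 := by
      funext i
      have h2 := congrFun hr i
      simp only [Finset.sum_apply, Pi.smul_apply, smul_eq_mul, Pi.zero_apply] at h2 ⊢
      have h3 : ∀ j, r j * ((b j i : ℚ) : ℝ) = (b j i) • r j := by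
        intro j
        rw [Rat.smul_def, mul_comm]
      simp only [h3] at h2
      have h4 := congrArg φ h2
      rw [map_sum, map_zero] at h4
      rw [← h4]
      apply Finset.sum_congr rfl
      intro j _
      rw [map_smul, smul_eq_mul, mul_comm]
    exact hφ (Fintype.linearIndependent_iff.1 hb _ h1 j0)
  refine ⟨hind, ?_⟩
  intro l a ha hl
  obtain ⟨φ, hφ⟩ : ∃ φ : Module.Dual ℚ ℝ, φ 1 ≠ 0 := by
    by_contra hcon
    push Not at hcon
    exact one_ne_zero ((Module.forall_dual_apply_eq_zero_iff ℚ (1 : ℝ)).1 hcon)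
  set ψ : Module.Dual ℚ ℝ := (φ 1)⁻¹ • φ with hψ
  have hψ1 : ψ 1 = 1 := by
    rw [hψ, LinearMap.smul_apply, smul_eq_mul, inv_mul_cancel₀ hφ]
  have hψq : ∀ q : ℚ, ψ (q : ℝ) = q := by
    intro q
    have : (q : ℝ) = q • (1 : ℝ) := by rw [Rat.smul_def, mul_one]
    rw [this, map_smul, hψ1, smul_eq_mul, mul_one]
  have hcomb : ∀ i, l i = ∑ j, ψ (a j) * b j i := by
    intro i
    have h1 := congrArg ψ (hl i)
    rw [hψq, map_sum] at h1
    rw [h1]
    apply Finset.sum_congr rfl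
    intro j _
    have h3 : a j * ((b j i : ℚ) : ℝ) = (b j i) • a j := by
      rw [Rat.smul_def, mul_comm]
    rw [h3, map_smul, smul_eq_mul, mul_comm]
  have heq : ∀ j, ((ψ (a j) : ℚ) : ℝ) = a j := by
    have h1 : ∑ j, (((ψ (a j) : ℚ) : ℝ) - a j) • (fun i => ((b j i : ℚ) : ℝ)) = 0 := by
      funext i
      simp only [Finset.sum_apply, Pi.smul_apply, smul_eq_mul, Pi.zero_apply, sub_mul,
        Finset.sum_sub_distrib]
      rw [← hl i, hcomb i]
      push_cast
      ring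
    intro j
    have h2 := Fintype.linearIndependent_iff.1 hind _ h1 j
    linarith
  refine ⟨fun j => ψ (a j), ?_, ?_⟩
  · intro j
    have := ha j
    rw [← heq j] at this
    exact_mod_cast this
  · funext i
    rw [hcomb i]
    simp [Finset.sum_apply]

end Pool.Agent.N110.NV
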