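import Pool.Agent.N110.NV.Stm
import Pool.Agent.N110.Pair
import Pool.Agent.N110.Conv
import Pool.Agent.R887.Noe
import Pool.Agent.N776.CT1

/-!
Project NV (helper110), CT: a function of degree at most `D` is a quotient of two sections of `D H`.
-/

set_option autoImplicit false
set_option linter.overlappingInstances false
set_option linter.unusedSectionVars false

open FF MvPolynomial Pool.Agent.W602.GT Pool.Agent.Y172 Pool.Agent.R887 Pool.Agent.N110
open scoped IntermediateField.algebraAdjoinAdjoin

namespace Pool.Agent.N776.CT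

section

variable {K : Type} [Field K] [Algebra ℂ K]

/-- the evaluation at `G = g` and `T = t` -/
noncomputable def ev {σ : Type} (g : K) (t : σ → K) : MvPolynomial σ (Polynomial ℂ) →+* K :=
  eval₂Hom (Polynomial.aeval g : Polynomial ℂ →ₐ[ℂ] K).toRingHom t

lemma ev_C {σ : Type} (g : K) (t : σ → K) (a : Polynomial ℂ) :
    ev g t (C a) = Polynomial.aeval g a := by
  rw [ev, coe_eval₂Hom, eval₂_C]
  rfl

lemma ev_X {σ : Type} (g : K) (t : σ → K) (i : σ) : ev g t (X i) = t i := by
  rw [ev, coe_eval₂Hom, eval₂_X]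

lemma ev_option {σ : Type} (g : K) (t : σ → K) (F : MvPolynomial (Option σ) ℂ) :
    ev g t (optionEquivRight ℂ σ F) = aeval (fun o : Option σ => o.elim g t) F := by
  have h : (ev g t).comp (optionEquivRight ℂ σ).toAlgHom.toRingHom =
      (aeval (fun o : Option σ => o.elim g t) : MvPolynomial (Option σ) ℂ →ₐ[ℂ] K).toRingHom := by
    apply MvPolynomial.ringHom_ext
    · intro r
      change ev g t (optionEquivRight ℂ σ (C r)) = aeval _ (C r)
      rw [optionEquivRight_C, ev_C, Polynomial.aeval_C, aeval_C]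
    · intro i
      change ev g t (optionEquivRight ℂ σ (X i)) = aeval _ (X i)
      rw [aeval_X]
      rcases i with _ | i
      · rw [optionEquivRight_X_none, ev_C, Polynomial.aeval_X]
        rfl
      · rw [optionEquivRight_X_some, ev_X]
        rfl
  exact congrArg (fun f => f F) h

/-- the relation -/
theorem exists_rel {n : ℕ} {t : Fin n → K} (ht : IsTranscendenceBasis ℂ t) (g : K) :
    ∃ F : MvPolynomial (Fin n) (Polynomial ℂ), F ≠ 0 ∧ ev g t F = 0 := by
  have h1 : ¬ AlgebraicIndependent ℂ (fun o : Option (Fin n) => o.elim g t) := by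
    rw [ht.1.option_iff_transcendental]
    have h2 := ht.isAlgebraic
    exact fun h => h (h2.isAlgebraic g)
  rw [algebraicIndependent_iff] at h1
  push Not at h1
  obtain ⟨F, hF, hF0⟩ := h1
  refine ⟨optionEquivRight ℂ (Fin n) F, ?_, ?_⟩
  · intro h
    exact hF0 ((optionEquivRight ℂ (Fin n)).injective (by rw [h, map_zero]))
  · rw [ev_option, hF]

/-- a family of the right cardinality over which a transcendence basis is algebraic -/
theorem basis_of_alg {n : ℕ} {t : Fin n → K} (ht : IsTranscendenceBasis ℂ t)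
    (hn : Algebra.trdeg ℂ K = n) {ι : Type} [Fintype ι] (v : ι → K) (hc : Fintype.card ι ≤ n)
    (h : ∀ i, IsAlgebraic (IntermediateField.adjoin ℂ (Set.range v)) (t i)) :
    IsTranscendenceBasis ℂ v := by
  have h1 : IntermediateField.adjoin ℂ (Set.range t) ≤
      (algebraicClosure (IntermediateField.adjoin ℂ (Set.range v)) K).restrictScalars ℂ := by
    rw [IntermediateField.adjoin_le_iff]
    rintro _ ⟨i, rfl⟩
    exact (mem_algebraicClosure_iff).2 (h i)
  have h2 := ht.isAlgebraic_field
  have h3 : Algebra.IsAlgebraic (Algebra.adjoin ℂ (Set.range v)) K := by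
    constructor
    intro z
    have h4 : IsAlgebraic (IntermediateField.adjoin ℂ (Set.range v)) z :=
      isAlg_trans (fun a ha => (mem_algebraicClosure_iff).1 (h1 ha)) (h2.isAlgebraic z)
    exact (IsFractionRing.isAlgebraic_iff (Algebra.adjoin ℂ (Set.range v))
      (IntermediateField.adjoin ℂ (Set.range v)) K).2 h4
  refine Algebra.IsAlgebraic.isTranscendenceBasis_of_le_trdeg_of_finite ℂ v ?_
  rw [hn, Cardinal.mk_fintype]
  exact_mod_cast hc

/-- the evaluation as a polynomial in `X 0` -/
lemma ev_finSucc {m : ℕ} (g : K) (t : Fin (m + 1) → K)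
    (p : MvPolynomial (Fin (m + 1)) (Polynomial ℂ)) :
    Polynomial.eval₂ (ev g (fun a : Fin m => t a.succ)) (t 0) (finSuccEquiv _ m p) =
      ev g t p := by
  have h : (Polynomial.eval₂RingHom (ev g (fun a : Fin m => t a.succ)) (t 0)).comp
      (finSuccEquiv (Polynomial ℂ) m).toAlgHom.toRingHom = ev g t := by
    apply MvPolynomial.ringHom_ext
    · intro r
      change Polynomial.eval₂ _ _ (finSuccEquiv (Polynomial ℂ) m (C r)) = _
      rw [show (C r : MvPolynomial (Fin (m + 1)) (Polynomial ℂ)) = algebraMap _ _ r from rfl,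
        AlgEquiv.commutes]
      rw [Polynomial.algebraMap_apply, Polynomial.eval₂_C]
      change ev g _ (C r) = ev g t (C r)
      rw [ev_C, ev_C]
    · intro i
      change Polynomial.eval₂ _ _ (finSuccEquiv (Polynomial ℂ) m (X i)) = _
      refine Fin.cases ?_ (fun j => ?_) i
      · rw [finSuccEquiv_X_zero, Polynomial.eval₂_X, ev_X]
      · rw [finSuccEquiv_X_succ, Polynomial.eval₂_C, ev_X, ev_X]
  exact congrArg (fun f => f p) h

lemma finite_of_alg [Algebra.EssFiniteType ℂ K] (L : IntermediateField ℂ K)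
    (h : Algebra.IsAlgebraic L K) : FiniteDimensional L K := by
  have h4 : Algebra.EssFiniteType L K := Algebra.EssFiniteType.of_comp ℂ _ K
  obtain ⟨s, hs⟩ := IntermediateField.fg_top L K
  have h5 : FiniteDimensional L (IntermediateField.adjoin L (s : Set K)) :=
    IntermediateField.finiteDimensional_adjoin (fun x _ => (h.isAlgebraic x).isIntegral)
  rw [hs] at h5
  exact IntermediateField.topEquiv.toLinearEquiv.finiteDimensional

/-- **The degree of the relation.** -/
theorem core {m : ℕ} {t : Fin (m + 1) → K} (ht : IsTranscendenceBasis ℂ t)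
    (hn : Algebra.trdeg ℂ K = (m + 1 : ℕ)) [Algebra.EssFiniteType ℂ K] (g : K)
    (hg : Transcendental ℂ g) :
    ∃ t' : Fin (m + 1) → K, (∀ a, t' a ∈ Submodule.span ℂ (Set.range t)) ∧
      IsTranscendenceBasis ℂ t' ∧ ∃ p : MvPolynomial (Fin (m + 1)) (Polynomial ℂ), p ≠ 0 ∧
        ev g t' p = 0 ∧
        p.totalDegree ≤ degreeOver (fun a : Fin m => t' a.succ) (fun _ : Fin 1 => g) := by
  obtain ⟨F, hF0, hF⟩ := exists_rel ht g
  have hG : (X 0 : MvPolynomial (Fin (m + 1)) (Polynomial ℂ)) *
      homogeneousComponent F.totalDegree F ≠ 0 := mul_ne_zero (X_ne_zero 0) (top_ne F hF0)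
  obtain ⟨c, hc⟩ := exists_const_ne (k := ℂ) _ hG
  rw [map_mul, eval_X] at hc
  have hc1 := right_ne_zero_of_mul hc
  have hc0 : c 0 ≠ 0 := by
    intro h
    rw [h, map_zero, zero_mul] at hc
    exact hc rfl
  set cA : Fin (m + 1) → Polynomial ℂ := fun i => algebraMap ℂ (Polynomial ℂ) (c i) with hcA
  -- the new coordinates
  set t' : Fin (m + 1) → K :=
    fun i => if i = 0 then (c 0)⁻¹ • t 0 else t i - c i • ((c 0)⁻¹ • t 0) with ht'
  have ht'0 : t' 0 = (c 0)⁻¹ • t 0 := by rw [ht']; simp
  have htt : ∀ i, (if i = 0 then 0 else t' i) + c i • t' 0 = t i := by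
    intro i
    rw [ht'0]
    by_cases hi : i = 0
    · subst hi
      rw [if_pos rfl, zero_add, smul_smul, mul_inv_cancel₀ hc0, one_smul]
    · rw [if_neg hi, ht']
      simp only [if_neg hi]
      abel
  have hspan : ∀ a, t' a ∈ Submodule.span ℂ (Set.range t) := by
    intro a
    have h0 : (c 0)⁻¹ • t 0 ∈ Submodule.span ℂ (Set.range t) :=
      Submodule.smul_mem _ _ (Submodule.subset_span ⟨0, rfl⟩)
    rw [ht']
    by_cases ha : a = 0
    · simp only [if_pos ha]
      exact h0
    · simp only [if_neg ha]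
      exact Submodule.sub_mem _ (Submodule.subset_span ⟨a, rfl⟩) (Submodule.smul_mem _ _ h0)
  have hbas' : IsTranscendenceBasis ℂ t' := by
    refine basis_of_alg ht hn t' (by simp) fun i => ?_
    have h1 : t i ∈ IntermediateField.adjoin ℂ (Set.range t') := by
      rw [← htt i]
      have h2 : ∀ a, t' a ∈ IntermediateField.adjoin ℂ (Set.range t') := fun a =>
        IntermediateField.subset_adjoin _ _ ⟨a, rfl⟩
      refine add_mem ?_ ?_
      · split_ifs
        · exact zero_mem _
        · exact h2 i
      · exact IntermediateField.smul_mem _ (h2 0)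
    exact isAlgebraic_algebraMap (⟨t i, h1⟩ : IntermediateField.adjoin ℂ (Set.range t'))
  have hevs : ∀ f, ev g t' (sub cA f) = ev g t f := by
    intro f
    have h : (ev g t').comp (sub cA).toRingHom = ev g t := by
      apply MvPolynomial.ringHom_ext
      · intro r
        change ev g t' (sub cA (C r)) = _
        rw [sub, algHom_C]
        change ev g t' (C r) = _
        rw [ev_C, ev_C]
      · intro i
        change ev g t' (sub cA (X i)) = _
        rw [sub, aeval_X, map_add, map_mul, ev_C, ev_X, ev_X, ← htt i, hcA]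
        simp only [Polynomial.algebraMap_apply, Algebra.algebraMap_self, RingHom.id_apply,
          Polynomial.aeval_C]
        rw [Algebra.smul_def]
        congr 1
        split_ifs
        · rw [map_zero]
        · rw [ev_X]
    exact congrArg (fun φ => φ f) h
  have hF'0 : sub cA F ≠ 0 := sub_ne_zero cA F hc1
  obtain ⟨p, q, hp, hevp, hpq⟩ := exists_irred (ev g t') hF'0 (by rw [hevs, hF])
  have hpd : p.totalDegree = degreeOf 0 p := by
    refine factor_deg (q := q) (by rw [← hpq]; exact hF'0) ?_
    rw [← hpq]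
    exact (sub_totalDegree_le cA F).trans (le_degreeOf_sub cA F hc1)
  have hg' : ∀ a : Polynomial ℂ, a ≠ 0 → Polynomial.aeval g a ≠ 0 := fun a ha h =>
    hg ⟨a, ha, h⟩
  have hd1 : 1 ≤ p.totalDegree := by
    by_contra h
    have h1 : p.totalDegree = 0 := by omega
    rw [totalDegree_eq_zero_iff_eq_C] at h1
    have h2 : coeff 0 p ≠ 0 := by
      intro h3
      rw [h3, map_zero] at h1
      exact hp.ne_zero h1
    rw [h1, ev_C] at hevp
    exact hg' _ h2 hevp
  refine ⟨t', hspan, hbas', p, hp.ne_zero, hevp, ?_⟩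
  -- the functions `u, g`
  set u : Fin m → K := fun a => t' a.succ with hu
  set v : Option (Fin m) → K := fun o => o.elim g u with hv
  have hset : Set.range u ∪ Set.range (fun _ : Fin 1 => g) = Set.range v := by
    ext z
    constructor
    · rintro (⟨a, rfl⟩ | ⟨a, rfl⟩)
      · exact ⟨some a, rfl⟩
      · exact ⟨none, rfl⟩
    · rintro ⟨o, rfl⟩
      rcases o with _ | a
      · exact Or.inr ⟨0, rfl⟩
      · exact Or.inl ⟨a, rfl⟩
  have hevu : ∀ b : MvPolynomial (Fin m) (Polynomial ℂ),
      ev g u b ∈ Algebra.adjoin ℂ (Set.range v) := by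
    intro b
    obtain ⟨b', rfl⟩ := (optionEquivRight ℂ (Fin m)).surjective b
    rw [ev_option, Algebra.adjoin_range_eq_range_aeval]
    exact ⟨b', rfl⟩
  set κ : MvPolynomial (Fin m) (Polynomial ℂ) →+* Algebra.adjoin ℂ (Set.range v) :=
    (ev g u).codRestrict _ hevu with hκ
  have hκa : ∀ b, ((κ b : Algebra.adjoin ℂ (Set.range v)) : K) = ev g u b := fun b => rfl
  set P : Polynomial (MvPolynomial (Fin m) (Polynomial ℂ)) := finSuccEquiv _ m p with hP
  have hPd : P.natDegree = p.totalDegree := by rw [hP, natDegree_finSuccEquiv, hpd]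
  have hP0 : P ≠ 0 := by
    intro h
    rw [h, Polynomial.natDegree_zero] at hPd
    omega
  have hroot : Polynomial.aeval (t' 0) (P.map κ) = 0 := by
    rw [Polynomial.aeval_def, Polynomial.eval₂_map]
    have h1 : (algebraMap (Algebra.adjoin ℂ (Set.range v)) K).comp κ = ev g u := rfl
    rw [h1, hP, hu, ev_finSucc, hevp]
  have hlead : κ P.leadingCoeff ≠ 0 := by
    have h1 : P.leadingCoeff ≠ 0 := Polynomial.leadingCoeff_ne_zero.2 hP0
    have h2 := totalDegree_coeff_finSuccEquiv_add_le p P.natDegree h1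
    have h3 : totalDegree P.leadingCoeff = 0 := by
      have h4 : totalDegree (Polynomial.coeff ((finSuccEquiv (Polynomial ℂ) m) p) P.natDegree) =
        totalDegree P.leadingCoeff := rfl
      omega
    rw [totalDegree_eq_zero_iff_eq_C] at h3
    have h4 : coeff 0 P.leadingCoeff ≠ 0 := by
      intro h5
      rw [h5, map_zero] at h3
      exact h1 h3
    intro h5
    have h6 := congrArg Subtype.val h5
    rw [hκa, h3, ev_C] at h6
    exact hg' _ h4 h6
  have halg0 : IsAlgebraic (Algebra.adjoin ℂ (Set.range v)) (t' 0) := by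
    refine ⟨P.map κ, ?_, hroot⟩
    intro h
    have h1 := congrArg (fun f => Polynomial.coeff f P.natDegree) h
    simp only [Polynomial.coeff_map, Polynomial.coeff_zero] at h1
    exact hlead h1
  have hbasv : IsTranscendenceBasis ℂ v := by
    refine basis_of_alg hbas' hn v (by simp) fun i => ?_
    refine Fin.cases ?_ (fun a => ?_) i
    · exact (IsFractionRing.isAlgebraic_iff (Algebra.adjoin ℂ (Set.range v))
        (IntermediateField.adjoin ℂ (Set.range v)) K).1 halg0
    · exact isAlgebraic_algebraMap (⟨t' a.succ, IntermediateField.subset_adjoin _ _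
        ⟨some a, rfl⟩⟩ : IntermediateField.adjoin ℂ (Set.range v))
  have hκi : Function.Injective κ := by
    intro a b hab
    have h1 := congrArg Subtype.val hab
    rw [hκa, hκa] at h1
    obtain ⟨a', rfl⟩ := (optionEquivRight ℂ (Fin m)).surjective a
    obtain ⟨b', rfl⟩ := (optionEquivRight ℂ (Fin m)).surjective b
    rw [ev_option, ev_option] at h1
    rw [hbasv.1 h1]
  have hκs : Function.Surjective κ := by
    rintro ⟨z, hz⟩
    have hz' := hz
    rw [Algebra.adjoin_range_eq_range_aeval] at hz'
    obtain ⟨b, hb⟩ := hz'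
    refine ⟨optionEquivRight ℂ (Fin m) b, Subtype.ext ?_⟩
    rw [hκa, ev_option]
    exact hb
  set e : MvPolynomial (Fin m) (Polynomial ℂ) ≃+* Algebra.adjoin ℂ (Set.range v) :=
    RingEquiv.ofBijective κ ⟨hκi, hκs⟩ with he
  have : UniqueFactorizationMonoid (Algebra.adjoin ℂ (Set.range v)) :=
    e.toMulEquiv.uniqueFactorizationMonoid inferInstance
  have hPirr : Irreducible P := (MulEquiv.irreducible_iff (finSuccEquiv (Polynomial ℂ) m)).2 hp
  have hPirr' : Irreducible (P.map κ) :=
    (MulEquiv.irreducible_iff (Polynomial.mapEquiv e)).2 hPirr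
  have hPd' : (P.map κ).natDegree = p.totalDegree := by
    rw [Polynomial.natDegree_map_eq_of_injective hκi, hPd]
  have hmin := minpoly_deg (L := IntermediateField.adjoin ℂ (Set.range v)) hPirr'
    (by rw [hPd']; exact hd1) (x := t' 0) (by
      rw [Polynomial.aeval_map_algebraMap]
      exact hroot)
  have hfin : FiniteDimensional (IntermediateField.adjoin ℂ (Set.range v)) K :=
    finite_of_alg _ hbasv.isAlgebraic_field
  unfold degreeOver
  rw [hset, ← hPd', ← hmin]
  exact minpoly.natDegree_le _

/-- the polynomial in `G` -/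
noncomputable def sw {σ : Type} : MvPolynomial σ (Polynomial ℂ) →+* Polynomial (MvPolynomial σ ℂ) :=
  eval₂Hom (Polynomial.mapRingHom C) (fun i => Polynomial.C (X i))

lemma sw_coeff {σ : Type} (p : MvPolynomial σ (Polynomial ℂ)) (s : σ →₀ ℕ) (r : ℕ) :
    coeff s ((sw p).coeff r) = (coeff s p).coeff r := by
  classical
  induction p using MvPolynomial.induction_on' with
  | monomial s' a =>
    have h1 : sw (monomial s' a) = (a.map C) * Polynomial.C (monomial s' 1) := by
      rw [sw, coe_eval₂Hom, eval₂_monomial, monomial_eq, C_1, one_mul, Polynomial.coe_mapRingHom]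
      congr 1
      rw [Finsupp.prod, Finsupp.prod, map_prod]
      refine Finset.prod_congr rfl fun i _ => ?_
      rw [Polynomial.C_pow]
    rw [h1, Polynomial.coeff_mul_C, Polynomial.coeff_map, C_mul_monomial, mul_one, coeff_monomial,
      coeff_monomial]
    split_ifs <;> simp
  | add p q hp hq =>
    rw [map_add, Polynomial.coeff_add, coeff_add, coeff_add, Polynomial.coeff_add, hp, hq]

lemma sw_ev {σ : Type} (g : K) (t : σ → K) (p : MvPolynomial σ (Polynomial ℂ)) :
    Polynomial.eval₂ (aeval t : MvPolynomial σ ℂ →ₐ[ℂ] K).toRingHom g (sw p) = ev g t p := by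
  have h : (Polynomial.eval₂RingHom (aeval t : MvPolynomial σ ℂ →ₐ[ℂ] K).toRingHom g).comp sw =
      ev g t := by
    apply MvPolynomial.ringHom_ext
    · intro r
      rw [RingHom.comp_apply, sw, coe_eval₂Hom, eval₂_C, Polynomial.coe_mapRingHom,
        Polynomial.coe_eval₂RingHom, Polynomial.eval₂_map, ev_C, Polynomial.aeval_def]
      congr 1
      ext z
      simp
    · intro i
      rw [RingHom.comp_apply, sw, coe_eval₂Hom, eval₂_X, Polynomial.coe_eval₂RingHom,
        Polynomial.eval₂_C, ev_X]
      exact aeval_X t i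
  exact congrArg (fun f => f p) h

lemma sw_totalDegree {σ : Type} (p : MvPolynomial σ (Polynomial ℂ)) (r : ℕ) :
    ((sw p).coeff r).totalDegree ≤ p.totalDegree := by
  rw [totalDegree, Finset.sup_le_iff]
  intro s hs
  rw [mem_support_iff, sw_coeff] at hs
  refine le_totalDegree (mem_support_iff.2 fun h => hs ?_)
  rw [h, Polynomial.coeff_zero]

/-- polynomials of bounded degree in functions with poles at most `H` -/
lemma reg_pol {σ : Type} {P : Place ℂ K} {w : K} {t : σ → K} (hw : P.Reg w)
    (ht : ∀ a, P.Reg (w * t a)) (a : MvPolynomial σ ℂ) {D : ℕ} (ha : a.totalDegree ≤ D) :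
    P.Reg (w ^ D * aeval t a) := by
  classical
  rw [aeval_def, eval₂_eq, Finset.mul_sum]
  refine P.mem_O.1 (sum_mem fun s hs => ?_)
  have h1 : ∑ i ∈ s.support, s i ≤ D := (le_totalDegree hs).trans ha
  have h2 : w ^ D * (algebraMap ℂ K (coeff s a) * ∏ i ∈ s.support, t i ^ s i) =
      algebraMap ℂ K (coeff s a) * (w ^ (D - ∑ i ∈ s.support, s i) *
        ∏ i ∈ s.support, (w * t i) ^ s i) := by
    simp only [mul_pow]
    rw [Finset.prod_mul_distrib, Finset.prod_pow_eq_pow_sum]
    conv_lhs => rw [← Nat.sub_add_cancel h1, pow_add]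
    ring
  rw [h2]
  refine mul_mem (P.mem_O.2 (P.reg_const _)) (mul_mem (pow_mem (P.mem_O.2 hw) _) ?_)
  exact prod_mem fun i _ => pow_mem (P.mem_O.2 (ht i)) _

/-- the integrality of the leading coefficient times the root -/
lemma reg_lead {P : Place ℂ K} {g : K} (b : ℕ → K) (hb : ∀ r, P.Reg (b r)) (R : ℕ)
    (h0 : ∑ r ∈ Finset.range (R + 1), b r * g ^ r = 0) (hR : b R ≠ 0) : P.Reg (b R * g) := by
  classical
  set β : Polynomial P.O := ∑ r ∈ Finset.range (R + 1),
    Polynomial.monomial r (⟨b r, P.mem_O.2 (hb r)⟩ : P.O) with hβ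
  have hcoef : ∀ r, β.coeff r = if r < R + 1 then (⟨b r, P.mem_O.2 (hb r)⟩ : P.O) else 0 := by
    intro r
    rw [hβ, Polynomial.finsetSum_coeff]
    simp only [Polynomial.coeff_monomial]
    rw [Finset.sum_ite_eq' (Finset.range (R + 1)) r]
    simp only [Finset.mem_range]
  have hcR : β.coeff R ≠ 0 := by
    rw [hcoef, if_pos (Nat.lt_succ_self R)]
    intro h
    exact hR (congrArg Subtype.val h)
  have hdeg : β.natDegree = R := by
    apply le_antisymm
    · rw [Polynomial.natDegree_le_iff_coeff_eq_zero]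
      intro r hr
      rw [hcoef, if_neg (by omega)]
    · exact Polynomial.le_natDegree_of_ne_zero hcR
  have hlc : (β.leadingCoeff : K) = b R := by
    rw [Polynomial.leadingCoeff, hdeg, hcoef, if_pos (Nat.lt_succ_self R)]
  have hev : Polynomial.aeval g β = 0 := by
    rw [hβ, map_sum, ← h0]
    refine Finset.sum_congr rfl fun r _ => ?_
    rw [Polynomial.aeval_monomial]
    rfl
  have h1 := isIntegral_leadingCoeff_smul β g hev
  have h2 : β.leadingCoeff • g = b R * g := by
    rw [← hlc]
    rfl
  rw [h2] at h1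
  obtain ⟨z, hz⟩ := (IsIntegrallyClosed.isIntegral_iff (R := P.O) (K := K)).1 h1
  rw [← hz]
  exact P.mem_O.1 z.2

end

end Pool.Agent.N776.CT

namespace Pool.Agent.N110.NV

open Pool.Agent.N776.CT

/-- **(CT)** -/
theorem ct : S_CT := by
  intro K _ _ N n y hy hn hn0 i hi g D hg0 hD
  obtain ⟨m, rfl⟩ : ∃ m, n = m + 1 := ⟨n - 1, by omega⟩
  have hess := hy.ess
  by_cases hg : IsAlgebraic ℂ g
  · -- constants
    obtain ⟨z, rfl⟩ : g ∈ (algebraMap ℂ K).range :=
      minpoly.mem_range_of_degree_eq_one ℂ g
        (IsAlgClosed.degree_eq_one_of_irreducible ℂ (minpoly.irreducible hg.isIntegral))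
    refine ⟨1, one_ne_zero, fun P l _ hc => ?_⟩
    have hw : y i / y l ≠ 0 := div_ne_zero hi hc.1
    have h1 : 0 ≤ P.ord (y i / y l) := (P.reg_iff hw).1 (hc.2 i)
    have h2 : 0 ≤ P.ord (algebraMap ℂ K z) := (P.reg_iff hg0).1 (P.reg_const z)
    rw [one_mul, P.ord_one]
    constructor <;> positivity
  · -- a transcendence basis
    have hgt : Transcendental ℂ g := hg
    have htop : IntermediateField.adjoin ℂ (affS y i) = ⊤ := hy.field i hi
    have halg : Algebra.IsAlgebraic (Algebra.adjoin ℂ (affS y i)) K := by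
      constructor
      intro z
      have h1 := (alg_of_top htop).isAlgebraic z
      exact (IsFractionRing.isAlgebraic_iff (Algebra.adjoin ℂ (affS y i))
        (IntermediateField.adjoin ℂ (affS y i)) K).2 h1
    obtain ⟨t0, ht0, hb0⟩ := exists_isTranscendenceBasis_subset (R := ℂ) (affS y i)
    have hcard : Cardinal.mk (Fin (m + 1)) = Cardinal.mk t0 := by
      rw [hb0.cardinalMk_eq_trdeg, hn, Cardinal.mk_fin]
    obtain ⟨e⟩ := Cardinal.eq.1 hcard
    set t : Fin (m + 1) → K := fun a => (e a : K) with ht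
    have hbt : IsTranscendenceBasis ℂ t := hb0.comp_equiv e
    have hspan : Submodule.span ℂ (Set.range t) ≤ Submodule.span ℂ (affS y i) := by
      apply Submodule.span_mono
      rintro _ ⟨a, rfl⟩
      exact ht0 (e a).2
    obtain ⟨t', ht', hbt', p, hp0, hevp, hpd⟩ := core hbt hn g hgt
    have hdeg : p.totalDegree ≤ D := hpd.trans
      (hD (fun a : Fin m => t' a.succ) fun a => pencil_span hi (hspan (ht' _)))
    have hq0 : sw p ≠ 0 := by
      intro h
      apply hp0
      ext s r
      have h1 := sw_coeff p s r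
      rw [h, Polynomial.coeff_zero, coeff_zero] at h1
      rw [← h1, coeff_zero, Polynomial.coeff_zero]
    have hh0 : aeval t' (sw p).leadingCoeff ≠ 0 := fun h =>
      Polynomial.leadingCoeff_ne_zero.2 hq0 ((injective_iff_map_eq_zero _).1 hbt'.1 _ h)
    refine ⟨aeval t' (sw p).leadingCoeff, hh0, fun P l _ hc => ?_⟩
    set w : K := y i / y l with hw
    have hw0 : w ≠ 0 := div_ne_zero hi hc.1
    have hwr : P.Reg w := hc.2 i
    have hwt : ∀ a, P.Reg (w * t' a) := by
      intro a
      have h1 := hspan (ht' a)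
      generalize t' a = z at h1
      induction h1 using Submodule.span_induction with
      | mem x hx =>
        obtain ⟨j, rfl⟩ := hx
        have h2 : w * (y j / y i) = y j / y l := by
          rw [hw]
          field_simp
        beta_reduce
        rw [h2]
        exact hc.2 j
      | zero =>
        rw [mul_zero]
        exact P.reg_zero
      | add x x' _ _ h1 h2 =>
        rw [mul_add]
        exact P.reg_add h1 h2
      | smul c x _ h1 =>
        rw [mul_smul_comm, Algebra.smul_def]
        exact P.reg_mul (P.reg_const c) h1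
    have hb : ∀ r, P.Reg (w ^ D * aeval t' ((sw p).coeff r)) := fun r =>
      reg_pol hwr hwt _ ((sw_totalDegree p r).trans hdeg)
    have hsum : ∑ r ∈ Finset.range ((sw p).natDegree + 1),
        (w ^ D * aeval t' ((sw p).coeff r)) * g ^ r = 0 := by
      have h1 := sw_ev g t' p
      rw [hevp, Polynomial.eval₂_eq_sum_range] at h1
      simp only [mul_assoc]
      rw [← Finset.mul_sum]
      refine mul_eq_zero_of_right _ ?_
      exact h1
    have hbR : w ^ D * aeval t' ((sw p).coeff (sw p).natDegree) ≠ 0 :=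
      mul_ne_zero (pow_ne_zero _ hw0) hh0
    have h1 := (P.reg_iff hbR).1 (hb (sw p).natDegree)
    have h2 := (P.reg_iff (mul_ne_zero hbR hg0)).1
      (reg_lead (fun r => w ^ D * aeval t' ((sw p).coeff r)) hb _ hsum hbR)
    have h3 : (sw p).coeff (sw p).natDegree = (sw p).leadingCoeff := rfl
    rw [h3] at h1 h2 hbR
    rw [P.ord_mul (pow_ne_zero _ hw0) hh0, P.ord_pow] at h1
    rw [P.ord_mul hbR hg0, P.ord_mul (pow_ne_zero _ hw0) hh0, P.ord_pow] at h2
    rw [P.ord_mul hh0 hg0]
    constructor
    · linarith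
    · linarith

end Pool.Agent.N110.NV
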