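import Pool.Agent.N110.NV.Main
import Pool.Agent.N110.NV.CT
import Pool.Agent.N110.NV.Lim

/-!
Nonvanishing and abundance for `K_X + Δ` of numerical dimension zero on varieties of irregularity
zero.
-/

set_option autoImplicit false

open FF Pool.Agent.W602.GT Pool.Agent.Y172 Pool.Agent.R887

namespace Pool.Agent.N110.NV

section

variable {K : Type} [Field K] [Algebra ℂ K] {N n : ℕ} {y : Fin (N + 1) → K}

/-- **Nonvanishing for numerical dimension zero and irregularity zero.** -/
theorem nonvanishing (hy : NormalModel y) (hn : Algebra.trdeg ℂ K = n) (hn0 : 0 < n)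
    {Δ : Place ℂ K → ℚ} (hΔ : {P | IsPrimeDivisor y P ∧ Δ P ≠ 0}.Finite)
    (hpsef : LogPsef y n Δ) (hnum : NumDimLt y n Δ 1) (hq : IrregularityZero y) :
    ∃ m : ℕ, 1 ≤ m ∧ ∃ ω : (Fin n → Derivation ℂ K K) → K, ω ≠ 0 ∧
      IsSection y n m (m • Δ) ω :=
  nonvanishing_aux ct lim rat hy hn hn0 hΔ hpsef hnum hq

end

end Pool.Agent.N110.NV
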