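import Pool.Agent.N110.NV.Core
import Pool.Agent.R887.NefP

/-!
Nonvanishing for `K_X + Δ` of numerical dimension zero on varieties of irregularity zero.
-/

set_option autoImplicit false
set_option linter.unusedSectionVars false
set_option linter.overlappingInstances false

open FF Module Pool.Agent.W602.GT Pool.Agent.Y172 Pool.Agent.R887

namespace Pool.Agent.N110.NV

section

variable {K : Type} [Field K] [Algebra ℂ K] {N n : ℕ} {y : Fin (N + 1) → K}

theorem nonvanishing_aux (hCT : S_CT) (hLIM : S_LIM) (hRAT : S_RAT)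
    (hy : NormalModel y) (hn : Algebra.trdeg ℂ K = n) (hn0 : 0 < n) {Δ : Place ℂ K → ℚ}
    (hΔ : {P | IsPrimeDivisor y P ∧ Δ P ≠ 0}.Finite) (hpsef : LogPsef y n Δ)
    (hnum : NumDimLt y n Δ 1) (hq : IrregularityZero y) :
    ∃ m : ℕ, 1 ≤ m ∧ ∃ ω : (Fin n → Derivation ℂ K K) → K, ω ≠ 0 ∧
      IsSection y n m (m • Δ) ω := by
  classical
  have hess := hy.ess
  obtain ⟨i, hi⟩ := hy.ne
  obtain ⟨x, E, hx, hE⟩ := exists_crd hn (k := ℂ) (K := K)
  have hfr : IsFrame E := fun F => ⟨fun j => F (x j),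
    (Pool.Agent.W73.PG.PULL.expand x hx E hE F).symm⟩
  obtain ⟨c, hcf, hc⟩ := exists_ordc hy hn hx hE
  have hc' : IsDisc y E c := hc
  obtain ⟨Hy, hHy, hHP⟩ := exists_hyp hy hi
  obtain ⟨ρ, cc, hcc⟩ := hq
  obtain ⟨lam, hlam⟩ : ∃ lam : Place ℂ K → ℚ, lam = fun P => (c P : ℚ) + Δ P := ⟨_, rfl⟩
  have hlf : Fin0 y lam := by
    rw [hlam]
    refine Fin0.add (y := y) (D := fun P => (c P : ℚ)) (hcf.subset ?_) hΔ
    rintro P ⟨hP, h0⟩
    refine ⟨hP, fun h2 => h0 ?_⟩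
    change ((c P : ℤ) : ℚ) = 0
    rw [h2]
    simp
  -- the sections of `m (q (K + Δ) + H)`
  have hsec : ∀ (q m : ℕ) (g : K), g ∈ Sec y lam Hy q m ↔
      (g ≠ 0 ∧ g ∈ Lsp y c (m * q) ((m * q) • Δ + m • Hy)) := by
    intro q m g
    constructor
    · rintro ⟨h0, h1⟩
      refine ⟨h0, fun P hP => Or.inr ?_⟩
      have h2 := h1 P hP
      unfold Ev at h2
      rw [hlam] at h2
      rw [Pi.add_apply, Pi.smul_apply, Pi.smul_apply, nsmul_eq_mul, nsmul_eq_mul]
      push_cast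
      linarith
    · rintro ⟨h0, h1⟩
      refine ⟨h0, fun P hP => ?_⟩
      have h2 := (h1 P hP).resolve_left h0
      unfold Ev
      rw [hlam]
      rw [Pi.add_apply, Pi.smul_apply, Pi.smul_apply, nsmul_eq_mul, nsmul_eq_mul] at h2
      push_cast at h2
      linarith
  obtain ⟨m, hm, f, hf, hfo⟩ := core hCT hLIM hRAT hy hn hn0 hi hlf hHy hHP hcc (fun q hq => by
    obtain ⟨m, hm, ω, hω0, hω⟩ := hpsef i hi q hq
    have hωE : ω E ≠ 0 := fun h0 => hω0 (pluri_zero hfr hω.1 h0)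
    refine ⟨m, hm, ω E, (hsec q m _).2 ⟨hωE, fun P hP => Or.inr ?_⟩⟩
    obtain ⟨l, hl⟩ := exists_centred hy P
    have h1 := ((hc P hP _ ω hω.1 _).1 (hω.2 P l hP hl)).resolve_left hωE
    rw [Pi.add_apply, Pi.smul_apply, Pi.smul_apply, nsmul_eq_mul, nsmul_eq_mul, hHP P l hP hl]
    linarith) (fun ε hε => by
    obtain ⟨t, ht, m₀, h1⟩ := hnum Hy hHy ε hε
    obtain ⟨q₀, hq₀⟩ := exists_nat_gt (1 / t)
    refine ⟨max m₀ q₀, fun q m hq hm g₀ hg₀ g₁ hg₁ u hu => ?_⟩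
    have hq1 : m₀ ≤ q := (le_max_left _ _).trans hq
    have hq2 : (q₀ : ℝ) ≤ q := by exact_mod_cast (le_max_right _ _).trans hq
    have hm' : (1 : ℝ) ≤ m := by exact_mod_cast hm
    have h2 : m₀ ≤ m * q := by nlinarith
    have h3 : ((m : ℕ) : ℝ) ≤ t * ((m * q : ℕ) : ℝ) := by
      rw [div_lt_iff₀ ht] at hq₀
      push_cast
      have h4 : 1 ≤ (q : ℝ) * t := by nlinarith
      nlinarith
    have h4 := h1 (m * q) m h2 h3 u hu
      (fun j => frm x (m * q) ((![g₀, g₁] : Fin 2 → K) j)) E (fun j => ?_) ?_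
    · simp only [frm_self hE] at h4
      rw [pow_one] at h4
      push_cast at h4
      refine le_trans (le_of_eq ?_) h4
      congr 2
      funext j
      fin_cases j
      rfl
    · rw [isSection_iff hc' (frm_pluri x (m * q) _), frm_self hE]
      fin_cases j
      · exact ((hsec q m _).1 hg₀).2
      · exact ((hsec q m _).1 hg₁).2
    · rw [frm_self hE]
      exact hg₀.1)
  refine ⟨m, hm, frm x m f, fun h0 => hf ?_, ?_⟩
  · rw [← frm_self hE m f, h0]
    rfl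
  · rw [isSection_iff hc' (frm_pluri x m f), frm_self hE]
    refine fun P hP => Or.inr ?_
    have h1 := hfo P hP
    rw [hlam] at h1
    rw [Pi.smul_apply, nsmul_eq_mul]
    linarith

/-- nef divisors are pseudo-effective -/
theorem psef_of_nef (hy : NormalModel y) (hn : Algebra.trdeg ℂ K = n) (hn0 : 0 < n)
    {Δ : Place ℂ K → ℚ} (hnef : LogNef y n Δ) : LogPsef y n Δ := by
  intro i hi q hq
  obtain ⟨m, hm, h⟩ := hnef i hi q hq
  obtain ⟨Q, hQ⟩ := exists_divisorial hy hn hn0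
  obtain ⟨ω, hω, hg⟩ := h Q hQ
  refine ⟨m, hm, ω, fun h0 => ?_, hω⟩
  obtain ⟨P, hP, hT⟩ := exists_through hy Q
  obtain ⟨l, hl⟩ := exists_centred hy P
  obtain ⟨-, E', -, h1, -⟩ := hg P l hP hT hl
  rw [h0] at h1
  exact h1 rfl

end

end Pool.Agent.N110.NV
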