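import Pool.Agent.N110.NV.Fix

/-!
A divisor of numerical dimension zero is a nonnegative combination of its fixed components.
-/

set_option autoImplicit false
set_option linter.unusedSectionVars false
set_option linter.overlappingInstances false

open FF Module Pool.Agent.W602.GT Pool.Agent.Y172 Pool.Agent.R887

namespace Pool.Agent.N110.NV

section

variable {K : Type} [Field K] [Algebra ℂ K] {N n : ℕ} {y : Fin (N + 1) → K}
  {lam Hy : Place ℂ K → ℚ}

/-- the class of a section -/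
theorem cls_ev (hy : NormalModel y) {ρ : ℕ} {c : Place ℂ K → Fin ρ → ℚ}
    (hc : FiniteClasses y c) (hl : Fin0 y lam) (hH : Fin0 y Hy) {q m : ℕ} {g : K}
    (hg : g ≠ 0) :
    cls y c (Ev lam Hy q m g) = (m : ℚ) • ((q : ℚ) • cls y c lam + cls y c Hy) := by
  have h1 : Fin0 y (fun P => (P.ord g : ℚ)) := by
    refine (finite_ord hy hg).subset ?_
    rintro P ⟨hP, h0⟩
    refine ⟨hP, fun h2 => h0 ?_⟩
    change ((P.ord g : ℤ) : ℚ) = 0
    rw [h2]
    simp
  have h2 := cls_add (c := c) h1 (((hl.smul q).add hH).smul m)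
  rw [hc.principal g hg, zero_add, cls_smul, cls_add (hl.smul q) hH, cls_smul] at h2
  exact h2

/-- **Divisors of numerical dimension zero are effective.** -/
theorem core (hCT : S_CT) (hLIM : S_LIM) (hRAT : S_RAT)
    (hy : NormalModel y) (hn : Algebra.trdeg ℂ K = n) (hn0 : 0 < n)
    {i : Fin (N + 1)} (hi : y i ≠ 0) (hl : Fin0 y lam) (hHe : Effective y Hy)
    (hHP : ∀ P l, IsPrimeDivisor y P → Centred y l P → Hy P = P.ord (y i / y l))
    {ρ : ℕ} {c : Place ℂ K → Fin ρ → ℚ} (hc : FiniteClasses y c)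
    (hF2 : ∀ q : ℕ, 1 ≤ q → ∃ m : ℕ, 1 ≤ m ∧ ∃ g, g ∈ Sec y lam Hy q m)
    (hF3 : ∀ ε : ℝ, 0 < ε → ∃ q₀ : ℕ, ∀ q m : ℕ, q₀ ≤ q → 1 ≤ m →
      ∀ g₀ ∈ Sec y lam Hy q m, ∀ g₁ ∈ Sec y lam Hy q m,
      ∀ u : Fin (n - 1) → K, (∀ a, IsPencil y (u a)) →
        (degreeOver u (fun _ : Fin 1 => g₁ / g₀) : ℝ) ≤ ε * (m * q)) :
    ∃ m : ℕ, 1 ≤ m ∧ ∃ f : K, f ≠ 0 ∧ ∀ P, IsPrimeDivisor y P → 0 ≤ P.ord f + m * lam P := by
  classical
  have hH : Fin0 y Hy := hHe.2
  obtain ⟨q₁, hq₁, B, hB⟩ := bs_const hy hi hHP hc hF2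
  -- the independent classes
  obtain ⟨m₁, hm₁, g₁, hg₁⟩ := hF2 q₁ hq₁
  have hind0 := bs_indep hc hm₁ hg₁
  have hBp : ∀ P ∈ B, IsPrimeDivisor y P := by
    intro P hP
    have : P ∈ Bs y lam Hy q₁ := by
      rw [hB q₁ le_rfl]
      exact hP
    exact this.1
  have hind : LinearIndependent ℚ (fun P : B => c P.1) := by
    have h1 : Bs y lam Hy q₁ = (B : Set (Place ℂ K)) := hB q₁ le_rfl
    rw [h1] at hind0
    exact hind0
  obtain ⟨hindR, hrat⟩ := hRAT ρ B (fun P => c P.1) hind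
  -- the limit
  have hlim : ∃ a : B → ℝ, (∀ j, 0 ≤ a j) ∧
      toR (cls y c lam) = ∑ᶠ j, a j • (fun P : B => fun i => ((c P.1 i : ℚ) : ℝ)) j := by
    refine hLIM ρ (closure (effSet y c)) isClosed_closure (fun x hx z hz => clo_add hx hz)
      (fun x hx r hr => clo_smul hx hr) hc.salient (toR (cls y c Hy))
      (subset_closure (eff_mem hHe)) B _ hindR (toR (cls y c lam)) fun ε hε => ?_
    -- choice of `q`
    obtain ⟨q₀, hq₀⟩ := hF3 ε hε
    obtain ⟨q₂, hq₂⟩ := exists_nat_gt (1 / ε)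
    obtain ⟨q, hq⟩ : ∃ q, q = max (max q₀ q₁) (max q₂ 1) := ⟨_, rfl⟩
    have hqa : q₀ ≤ q := by omega
    have hqb : q₁ ≤ q := by omega
    have hqc : q₂ ≤ q := by omega
    have hqd : 1 ≤ q := by omega
    have hqd' : (1 : ℝ) ≤ q := by exact_mod_cast hqd
    have hqc' : (q₂ : ℝ) ≤ q := by exact_mod_cast hqc
    have hqi : 1 / (q : ℝ) ≤ ε := by
      rw [div_lt_iff₀ hε] at hq₂
      rw [div_le_iff₀ (by linarith)]
      nlinarith
    obtain ⟨m₁, hm₁, g₁, hg₁⟩ := hF2 q hqd
    -- the finite set of prime divisors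
    have hT0 : Fin0 y (Ev lam Hy q m₁ g₁) := ev_fin hy hl hH hg₁.1
    obtain ⟨T, hT⟩ : ∃ T : Finset (Place ℂ K), T = hT0.toFinset \ B := ⟨_, rfl⟩
    have hT1 : ∀ P ∈ T, IsPrimeDivisor y P ∧ P ∉ Bs y lam Hy q := by
      intro P hP
      rw [hT, Finset.mem_sdiff, Set.Finite.mem_toFinset] at hP
      refine ⟨hP.1.1, ?_⟩
      rw [hB q hqb]
      exact hP.2
    -- the error
    obtain ⟨S, hS⟩ : ∃ S : ℝ, S = ∑ P ∈ T, ‖toR (c P)‖ := ⟨_, rfl⟩
    have hS0 : 0 ≤ S := by
      rw [hS]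
      exact Finset.sum_nonneg fun _ _ => norm_nonneg _
    obtain ⟨δ, hδ, hδε⟩ : ∃ δ : ℚ, 0 < δ ∧ (δ : ℝ) * S ≤ ε := by
      obtain ⟨δ, h1, h2⟩ := exists_rat_btwn (show 0 < ε / (S + 1) by positivity)
      refine ⟨δ, by exact_mod_cast h1, ?_⟩
      rw [lt_div_iff₀ (by linarith)] at h2
      nlinarith
    obtain ⟨k, hk, g₂, hg₂, hg₂T⟩ := small_orders hm₁ hg₁ hδ T hT1
    obtain ⟨m, hm⟩ : ∃ m, m = k * m₁ := ⟨_, rfl⟩
    have hm1 : 1 ≤ m := by
      rw [hm]
      exact Nat.mul_pos hk hm₁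
    have hm1' : (1 : ℝ) ≤ m := by exact_mod_cast hm1
    have hm1q : (1 : ℚ) ≤ m := by exact_mod_cast hm1
    rw [← hm] at hg₂ hg₂T
    obtain ⟨g₃, hg₃⟩ : ∃ g₃, g₃ = g₁ ^ k := ⟨_, rfl⟩
    have hg₃s : g₃ ∈ Sec y lam Hy q m := by
      rw [hg₃, hm]
      exact sec_pow hg₁
    have hg₃0 : ∀ P, IsPrimeDivisor y P → P ∉ T → P ∉ B → Ev lam Hy q m g₃ P = 0 := by
      intro P hP hPT hPB
      rw [hg₃, hm, ev_pow]
      have h1 : Ev lam Hy q m₁ g₁ P = 0 := by
        by_contra h2
        apply hPT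
        rw [hT, Finset.mem_sdiff, Set.Finite.mem_toFinset]
        exact ⟨⟨hP, h2⟩, hPB⟩
      rw [h1, mul_zero]
    -- the quotient
    obtain ⟨g, hg⟩ : ∃ g, g = g₂ / g₃ := ⟨_, rfl⟩
    have hg0 : g ≠ 0 := by
      rw [hg]
      exact div_ne_zero hg₂.1 hg₃s.1
    obtain ⟨D, hD⟩ : ∃ D : ℕ, D = ⌊ε * (m * q)⌋₊ := ⟨_, rfl⟩
    have hDle : (D : ℝ) ≤ ε * (m * q) := by
      rw [hD]
      exact Nat.floor_le (by positivity)
    obtain ⟨h, hh0, hh⟩ := hCT K N n y hy hn hn0 i hi g D hg0 fun u hu => by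
      rw [hD]
      refine Nat.le_floor ?_
      rw [hg]
      exact hq₀ q m hqa hm1 g₃ hg₃s g₂ hg₂ u hu
    -- the moving part and the fixed part
    obtain ⟨F, hF⟩ : ∃ F : Place ℂ K → ℚ, F = fun P =>
      min (Ev lam Hy q m g₃ P) (Ev lam Hy q m g₂ P) := ⟨_, rfl⟩
    obtain ⟨M, hM⟩ : ∃ M : Place ℂ K → ℚ, M = fun P => Ev lam Hy q m g₃ P - F P := ⟨_, rfl⟩
    have hE3 : Fin0 y (Ev lam Hy q m g₃) := ev_fin hy hl hH hg₃s.1
    have hE2 : Fin0 y (Ev lam Hy q m g₂) := ev_fin hy hl hH hg₂.1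
    have hFf : Fin0 y F := by
      refine (hE3.union hE2).subset ?_
      rintro P ⟨hP, h0⟩
      by_contra hcon
      rw [Set.mem_union, not_or] at hcon
      have h1 : Ev lam Hy q m g₃ P = 0 := by
        by_contra h2
        exact hcon.1 ⟨hP, h2⟩
      have h2 : Ev lam Hy q m g₂ P = 0 := by
        by_contra h2
        exact hcon.2 ⟨hP, h2⟩
      apply h0
      rw [hF]
      change min (Ev lam Hy q m g₃ P) (Ev lam Hy q m g₂ P) = 0
      rw [h1, h2, min_self]
    have hMf : Fin0 y M := by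
      rw [hM]
      exact hE3.sub hFf
    have hF0 : ∀ P, IsPrimeDivisor y P → 0 ≤ F P := by
      intro P hP
      rw [hF]
      exact le_min (hg₃s.2 P hP) (hg₂.2 P hP)
    have hM0 : ∀ P, 0 ≤ M P := by
      intro P
      rw [hM, hF]
      exact sub_nonneg.2 (min_le_left _ _)
    have hMe : Effective y M := ⟨fun P _ => hM0 P, hMf⟩
    -- the divisor `D H - M`
    obtain ⟨G, hG⟩ : ∃ G : Place ℂ K → ℚ, G = fun P => (P.ord h + D * Hy P) - M P := ⟨_, rfl⟩
    have hoh : Fin0 y (fun P => (P.ord h : ℚ)) := by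
      refine (finite_ord hy hh0).subset ?_
      rintro P ⟨hP, h0⟩
      refine ⟨hP, fun h2 => h0 ?_⟩
      change ((P.ord h : ℤ) : ℚ) = 0
      rw [h2]
      simp
    have hGe : Effective y G := by
      refine ⟨fun P hP => ?_, ?_⟩
      · obtain ⟨l, hl'⟩ := exists_centred hy P
        have h1 := hh P l hP hl'
        rw [hG, hM, hF]
        have h2 := hHP P l hP hl'
        have h3 : (0 : ℚ) ≤ P.ord h + D * Hy P := by
          rw [h2]
          exact_mod_cast h1.1
        have h4 : (0 : ℚ) ≤ P.ord h + P.ord g + D * Hy P := by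
          rw [h2]
          have h5 := h1.2
          rw [P.ord_mul hh0 hg0] at h5
          exact_mod_cast h5
        have h5 : (P.ord g : ℚ) = Ev lam Hy q m g₂ P - Ev lam Hy q m g₃ P := by
          rw [hg, P.ord_div hg₂.1 hg₃s.1]
          unfold Ev
          push_cast
          ring
        change 0 ≤ (P.ord h + D * Hy P) - (Ev lam Hy q m g₃ P -
          min (Ev lam Hy q m g₃ P) (Ev lam Hy q m g₂ P))
        rcases le_total (Ev lam Hy q m g₃ P) (Ev lam Hy q m g₂ P) with h6 | h6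
        · rw [min_eq_left h6]
          linarith
        · rw [min_eq_right h6]
          linarith
      · rw [hG]
        exact (hoh.add (hH.smul D)).sub hMf
    have hGc : cls y c G = (D : ℚ) • cls y c Hy - cls y c M := by
      rw [hG, cls_sub (hoh.add (hH.smul D)) hMf, cls_add hoh (hH.smul D), hc.principal h hh0,
        zero_add, cls_smul]
    -- the classes
    have hcls : (m : ℚ) • ((q : ℚ) • cls y c lam + cls y c Hy) = cls y c F + cls y c M := by
      rw [← cls_ev hy hc hl hH (q := q) (m := m) hg₃s.1, ← cls_add hFf hMf]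
      refine cls_congr fun P _ => ?_
      rw [hM]
      ring
    have hFc : cls y c F = (∑ P ∈ B, F P • c P) + ∑ P ∈ T, F P • c P := by
      have hdis : Disjoint B T := by
        rw [Finset.disjoint_left]
        intro P hPB hPT
        rw [hT, Finset.mem_sdiff] at hPT
        exact hPT.2 hPB
      rw [← Finset.sum_union hdis]
      refine cls_finset (fun P hP => ?_) fun P hP hPn => ?_
      · rcases Finset.mem_union.1 hP with h1 | h1
        · exact hBp P h1
        · exact (hT1 P h1).1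
      · rw [Finset.mem_union, not_or] at hPn
        have h1 := hg₃0 P hP hPn.2 hPn.1
        have h2 := hg₂.2 P hP
        rw [hF]
        change min (Ev lam Hy q m g₃ P) (Ev lam Hy q m g₂ P) = 0
        rw [h1, min_eq_left h2]
    have hmq : (0 : ℝ) < m * q := by positivity
    have hmqQ : (0 : ℚ) < m * q := by
      have : (0 : ℚ) < q := by exact_mod_cast hqd
      have : (0 : ℚ) < m := by linarith
      positivity
    refine ⟨1 / q, by positivity, hqi, D / (m * q), by positivity, ?_,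
      fun P => (F P.1 : ℝ) / (m * q), fun P => ?_, ((1 / (m * q : ℝ)) • toR (cls y c M)), ?_,
      ?_, ?_⟩
    · rw [div_le_iff₀ hmq]
      exact hDle
    · have := hF0 P.1 (hBp P.1 P.2)
      have h1 : (0 : ℝ) ≤ F P.1 := by exact_mod_cast this
      positivity
    · exact clo_smul (subset_closure (eff_mem hMe)) (by positivity)
    · have h1 : toR (cls y c G) ∈ closure (effSet y c) := subset_closure (eff_mem hGe)
      rw [hGc, toR_sub, toR_smul] at h1
      have h2 := clo_smul h1 (show 0 ≤ 1 / (m * q : ℝ) by positivity)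
      have h3 : (1 / (m * q : ℝ)) • ((((D : ℕ) : ℚ) : ℝ) • toR (cls y c Hy) - toR (cls y c M)) =
          ((D : ℝ) / (m * q)) • toR (cls y c Hy) - (1 / (m * q : ℝ)) • toR (cls y c M) := by
        rw [smul_sub, smul_smul]
        congr 2
        push_cast
        ring
      rwa [h3] at h2
    · -- the error
      have h1 : toR (cls y c lam) + (1 / q : ℝ) • toR (cls y c Hy) =
          (1 / (m * q : ℝ)) • (toR (cls y c F) + toR (cls y c M)) := by
        rw [← toR_add, ← hcls, toR_smul, toR_add, toR_smul, smul_smul, smul_add, smul_smul]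
        congr 1
        · rw [show (1 / (m * q : ℝ)) * (((m : ℕ) : ℚ) : ℝ) * (((q : ℕ) : ℚ) : ℝ) = 1 by
            push_cast
            field_simp, one_smul]
        · congr 1
          push_cast
          field_simp
      have h2 : (∑ᶠ j : B, ((F j.1 : ℝ) / (m * q)) • (fun i => ((c j.1 i : ℚ) : ℝ))) =
          (1 / (m * q : ℝ)) • toR (∑ P ∈ B, F P • c P) := by
        rw [finsum_eq_sum_of_fintype, toR_sum, Finset.smul_sum, ← Finset.sum_coe_sort B]
        refine Finset.sum_congr rfl fun P _ => ?_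
        rw [toR_smul, smul_smul]
        congr 1
        ring
      have h3 : toR (cls y c lam) + (1 / q : ℝ) • toR (cls y c Hy) -
          (∑ᶠ j : B, ((F j.1 : ℝ) / (m * q)) • (fun i => ((c j.1 i : ℚ) : ℝ))) -
          (1 / (m * q : ℝ)) • toR (cls y c M) =
          (1 / (m * q : ℝ)) • toR (∑ P ∈ T, F P • c P) := by
        rw [h1, h2, hFc, toR_add, smul_add, smul_add]
        abel
      refine (le_of_eq (congrArg norm h3)).trans ?_
      rw [toR_sum, norm_smul, Real.norm_of_nonneg (by positivity)]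
      have h4 : ‖∑ P ∈ T, toR (F P • c P)‖ ≤ δ * m * S := by
        rw [hS, Finset.mul_sum]
        refine norm_sum_le_of_le _ fun P hP => ?_
        rw [toR_smul, norm_smul]
        refine mul_le_mul_of_nonneg_right ?_ (norm_nonneg _)
        have h5 := hF0 P (hT1 P hP).1
        have h6 : F P ≤ δ * m := by
          rw [hF]
          exact (min_le_right _ _).trans (hg₂T P hP)
        rw [Real.norm_of_nonneg (by exact_mod_cast h5)]
        exact_mod_cast h6
      rw [div_mul_eq_mul_div, one_mul, div_le_iff₀ hmq]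
      refine h4.trans ?_
      have h7 : δ * m * S = (δ * S) * m := by ring
      rw [h7]
      calc (δ * S) * (m : ℝ) ≤ ε * m := mul_le_mul_of_nonneg_right hδε (by positivity)
        _ ≤ ε * (m * q) := by
          refine mul_le_mul_of_nonneg_left ?_ hε.le
          nlinarith
  obtain ⟨a, ha, hla⟩ := hlim
  obtain ⟨a', ha', hla'⟩ := hrat (cls y c lam) a ha fun j => by
    have h1 := congrFun hla j
    rw [finsum_eq_sum_of_fintype] at h1
    change ((cls y c lam j : ℚ) : ℝ) = _ at h1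
    rw [h1]
    simp only [Finset.sum_apply, Pi.smul_apply, smul_eq_mul]
  -- the divisor `L - ∑ a' P`
  obtain ⟨b, hb⟩ : ∃ b : Place ℂ K → ℚ, b = fun P => if hP : P ∈ B then a' ⟨P, hP⟩ else 0 :=
    ⟨_, rfl⟩
  have hbB : ∀ P : B, b P.1 = a' P := by
    intro P
    rw [hb]
    change (if hP : P.1 ∈ B then a' ⟨P.1, hP⟩ else 0) = a' P
    rw [dif_pos P.2]
  have hb0 : ∀ P, P ∉ B → b P = 0 := by
    intro P hP
    rw [hb]
    exact dif_neg hP
  have hbn : ∀ P, 0 ≤ b P := by
    intro P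
    by_cases hP : P ∈ B
    · have := hbB ⟨P, hP⟩
      rw [this]
      exact ha' _
    · rw [hb0 P hP]
  have hbf : Fin0 y b := by
    refine (Finset.finite_toSet B).subset ?_
    rintro P ⟨-, h0⟩
    by_contra h1
    exact h0 (hb0 P h1)
  have hbc : cls y c b = cls y c lam := by
    rw [cls_finset (T := B) hBp fun P _ hP => hb0 P hP, hla', ← Finset.sum_coe_sort B]
    exact Finset.sum_congr rfl fun P _ => by rw [hbB]
  obtain ⟨m, hm, f, hf, hfo⟩ := hc.torsion (fun P => lam P - b P) (hl.sub hbf) (by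
    rw [cls_sub hl hbf, hbc, sub_self])
  refine ⟨m, hm, f⁻¹, inv_ne_zero hf, fun P hP => ?_⟩
  rw [P.ord_inv]
  push_cast
  rw [hfo P hP]
  have h1 := mul_nonneg (Nat.cast_nonneg (α := ℚ) m) (hbn P)
  linarith

end

end Pool.Agent.N110.NV
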