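import Pool.Agent.R887.DefsNefP

/-!
Definitions: divisor classes, varieties with a class group of finite rank and a pseudo-effective
cone without lines (irregularity zero), and pseudo-effective divisors `K_X + Δ`.
-/

set_option autoImplicit false

open FF Pool.Agent.W602.GT Pool.Agent.Y172 Pool.Agent.R887

namespace Pool.Agent.N110

section

variable {K : Type} [Field K] [Algebra ℂ K] {N : ℕ}

/-- The class of the divisor `D` on `X`, if `c P` is the class of the prime divisor `P`. -/
noncomputable def cls (y : Fin (N + 1) → K) {ρ : ℕ} (c : Place ℂ K → Fin ρ → ℚ)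
    (D : Place ℂ K → ℚ) : Fin ρ → ℚ :=
  ∑ᶠ P ∈ {P : Place ℂ K | IsPrimeDivisor y P}, D P • c P

/-- The vectors `c P` in `ℚ ^ ρ` describe the classes of the prime divisors of `X` in the group
`Cl X ⊗ ℚ`: the principal divisors have the class `0`, a `ℚ`-divisor with class `0` has a principal
multiple, and the pseudo-effective cone, the closure in `ℝ ^ ρ` of the classes of the effective
`ℚ`-divisors, contains no line. -/
structure FiniteClasses (y : Fin (N + 1) → K) {ρ : ℕ} (c : Place ℂ K → Fin ρ → ℚ) : Prop where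
  principal : ∀ f : K, f ≠ 0 → cls y c (fun P => P.ord f) = 0
  torsion : ∀ D : Place ℂ K → ℚ, {P | IsPrimeDivisor y P ∧ D P ≠ 0}.Finite → cls y c D = 0 →
    ∃ m : ℕ, 1 ≤ m ∧ ∃ f : K, f ≠ 0 ∧ ∀ P, IsPrimeDivisor y P → (P.ord f : ℚ) = m * D P
  salient : ∀ x : Fin ρ → ℝ,
    x ∈ closure {z : Fin ρ → ℝ | ∃ D, Effective y D ∧ ∀ i, z i = cls y c D i} →
    -x ∈ closure {z : Fin ρ → ℝ | ∃ D, Effective y D ∧ ∀ i, z i = cls y c D i} → x = 0

/-- The divisor class group of `X` has finite rank, and the pseudo-effective cone in `Cl X ⊗ ℝ`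
contains no line. For smooth `X` this means that the irregularity of `X` is zero: if
`q(X) = h¹(X, O_X) = 0` then `Cl X ⊗ ℝ` is the Néron-Severi space, and if `q(X) > 0` then the rank
of `Cl X` is infinite. -/
def IrregularityZero (y : Fin (N + 1) → K) : Prop :=
  ∃ (ρ : ℕ) (c : Place ℂ K → Fin ρ → ℚ), FiniteClasses y c

/-- The divisor `K_X + Δ`, `n` being the dimension of `X`, is pseudo-effective: for all `q ≥ 1` some
multiple `m (q (K_X + Δ) + H)`, `H` being a hyperplane section `y i = 0`, has a section `ω ≠ 0`. -/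
def LogPsef (y : Fin (N + 1) → K) (n : ℕ) (Δ : Place ℂ K → ℚ) : Prop :=
  ∀ i, y i ≠ 0 → ∀ q : ℕ, 1 ≤ q → ∃ m : ℕ, 1 ≤ m ∧ ∃ ω : (Fin n → Derivation ℂ K K) → K,
    ω ≠ 0 ∧ IsTwistedSectionP y i n Δ (m * q) m ω

end

end Pool.Agent.N110
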