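import Pool.Agent.N110.NV.Gen

/-!
The fixed part is constant for large `q`; sections with small orders off the fixed part.
-/

set_option autoImplicit false
set_option linter.unusedSectionVars false
set_option linter.overlappingInstances false

open FF Module Pool.Agent.W602.GT Pool.Agent.Y172 Pool.Agent.R887

namespace Pool.Agent.N110.NV

section

variable {K : Type} [Field K] [Algebra ℂ K] {N : ℕ} {y : Fin (N + 1) → K}
  {lam Hy : Place ℂ K → ℚ}

theorem bs_finite {ρ : ℕ} {c : Place ℂ K → Fin ρ → ℚ} (hc : FiniteClasses y c) {q m₁ : ℕ}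
    (hm₁ : 1 ≤ m₁) {g : K} (hg : g ∈ Sec y lam Hy q m₁) :
    (Bs y lam Hy q).Finite ∧ (Bs y lam Hy q).ncard ≤ ρ := by
  have h1 := bs_indep hc hm₁ hg
  have h2 : Finite (Bs y lam Hy q) := h1.finite_of_isNoetherian
  have h3 : Fintype (Bs y lam Hy q) := Fintype.ofFinite _
  refine ⟨Set.toFinite _, ?_⟩
  have h4 := h1.fintype_card_le_finrank
  rw [Module.finrank_fin_fun] at h4
  rwa [← Nat.card_coe_set_eq, Nat.card_eq_fintype_card]

/-- the fixed part is constant for large `q` -/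
theorem bs_const (hy : NormalModel y) {i : Fin (N + 1)} (hi : y i ≠ 0)
    (hHP : ∀ P l, IsPrimeDivisor y P → Centred y l P → Hy P = P.ord (y i / y l))
    {ρ : ℕ} {c : Place ℂ K → Fin ρ → ℚ} (hc : FiniteClasses y c)
    (hF2 : ∀ q : ℕ, 1 ≤ q → ∃ m : ℕ, 1 ≤ m ∧ ∃ g, g ∈ Sec y lam Hy q m) :
    ∃ q₁ : ℕ, 1 ≤ q₁ ∧ ∃ B : Finset (Place ℂ K), ∀ q, q₁ ≤ q → Bs y lam Hy q = B := by
  classical
  have h1 : ∀ q : ℕ, 1 ≤ q → (Bs y lam Hy q).Finite ∧ (Bs y lam Hy q).ncard ≤ ρ := by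
    intro q hq
    obtain ⟨m, hm, g, hg⟩ := hF2 q hq
    exact bs_finite hc hm hg
  obtain ⟨A, hA⟩ : ∃ A : Set ℕ, A = {k | ∃ q : ℕ, 1 ≤ q ∧ (Bs y lam Hy q).ncard = k} := ⟨_, rfl⟩
  have h2 : A.Nonempty := ⟨_, by rw [hA]; exact ⟨1, le_rfl, rfl⟩⟩
  have h3 : BddAbove A := by
    refine ⟨ρ, ?_⟩
    rw [hA]
    rintro k ⟨q, hq, rfl⟩
    exact (h1 q hq).2
  have h4 := Nat.sSup_mem h2 h3
  have h5 : ∀ k ∈ A, k ≤ sSup A := fun k hk => le_csSup h3 hk
  rw [hA] at h4 h5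
  obtain ⟨q₁, hq₁, h6⟩ := h4
  refine ⟨q₁, hq₁, (h1 q₁ hq₁).1.toFinset, fun q hq => ?_⟩
  rw [Set.Finite.coe_toFinset]
  symm
  refine Set.eq_of_subset_of_ncard_le (bs_mono hy hi hHP hq₁ hq) ?_ (h1 q (hq₁.trans hq)).1
  rw [h6]
  exact h5 _ ⟨q, hq₁.trans hq, rfl⟩

theorem ev_fin (hy : NormalModel y) (hl : Fin0 y lam) (hH : Fin0 y Hy) {q m : ℕ} {g : K}
    (hg : g ≠ 0) : Fin0 y (Ev lam Hy q m g) := by
  have h1 : Fin0 y (fun P => (P.ord g : ℚ)) := by
    refine (finite_ord hy hg).subset ?_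
    rintro P ⟨hP, h0⟩
    refine ⟨hP, fun h2 => h0 ?_⟩
    change ((P.ord g : ℤ) : ℚ) = 0
    rw [h2]
    simp
  have h2 := h1.add (((hl.smul q).add hH).smul m)
  exact h2

/-- sections with orders at most `ε m` off the fixed part, along given prime divisors -/
theorem small_orders {q m₁ : ℕ} (hm₁ : 1 ≤ m₁) {g₁ : K} (hg₁ : g₁ ∈ Sec y lam Hy q m₁)
    {ε : ℚ} (hε : 0 < ε) (T : Finset (Place ℂ K))
    (hT : ∀ P ∈ T, IsPrimeDivisor y P ∧ P ∉ Bs y lam Hy q) :
    ∃ k : ℕ, 1 ≤ k ∧ ∃ g ∈ Sec y lam Hy q (k * m₁), ∀ P ∈ T,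
      Ev lam Hy q (k * m₁) g P ≤ ε * (k * m₁ : ℕ) := by
  classical
  induction T using Finset.induction_on with
  | empty => exact ⟨1, le_rfl, g₁, by rwa [one_mul], fun P hP => absurd hP (by simp)⟩
  | insert P T hPT ih =>
    obtain ⟨k, hk, g, hg, hgT⟩ := ih fun Q hQ => hT Q (Finset.mem_insert_of_mem hQ)
    obtain ⟨hP, hPB⟩ := hT P (Finset.mem_insert_self P T)
    have h1 : ∃ m : ℕ, 1 ≤ m ∧ ∃ g ∈ Sec y lam Hy q m, Ev lam Hy q m g P < ε * m := by
      by_contra hcon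
      push Not at hcon
      exact hPB ⟨hP, ε, hε, hcon⟩
    obtain ⟨m, hm, g', hg', hg'P⟩ := h1
    obtain ⟨G, hG⟩ : ∃ G, G = g ^ m := ⟨_, rfl⟩
    obtain ⟨G', hG'⟩ : ∃ G', G' = g' ^ (k * m₁) := ⟨_, rfl⟩
    have hGs : G ∈ Sec y lam Hy q (m * (k * m₁)) := by
      rw [hG]
      exact sec_pow hg
    have hGs' : G' ∈ Sec y lam Hy q (m * (k * m₁)) := by
      rw [hG', mul_comm]
      exact sec_pow hg'
    obtain ⟨v, hv, hv0, hvo⟩ := exists_generic (k₀ := ℂ) (k := ℂ) (K := K) (S := {G, G'})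
      (by simp) (T := ((insert P T : Finset (Place ℂ K)) : Set (Place ℂ K)))
      (Finset.finite_toSet _) ⟨G, by simp, hGs.1⟩
    have hvs : v ∈ Sec y lam Hy q (m * (k * m₁)) := by
      refine ⟨hv0, fun Q hQ => ?_⟩
      have h2 : Submodule.span ℂ {G, G'} ≤ Lsp y 0 0 (fun R => (m * (k * m₁) : ℕ) *
          (q * lam R + Hy R)) := by
        rw [Submodule.span_le]
        rintro s (rfl | rfl)
        · intro R hR
          right
          have h3 := hGs.2 R hR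
          unfold Ev at h3
          simp only [Nat.cast_zero, zero_mul]
          linarith
        · intro R hR
          right
          have h3 := hGs'.2 R hR
          unfold Ev at h3
          simp only [Nat.cast_zero, zero_mul]
          linarith
      have h3 := (h2 hv Q hQ).resolve_left hv0
      unfold Ev
      simp only [Nat.cast_zero, zero_mul] at h3
      linarith
    have hle : ∀ s ∈ ({G, G'} : Set K), s ≠ 0 → ∀ Q ∈ insert P T,
        Ev lam Hy q (m * (k * m₁)) v Q ≤ Ev lam Hy q (m * (k * m₁)) s Q := by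
      intro s hs hs0 Q hQ
      have h3 : (Q.ord v : ℚ) ≤ Q.ord s := by exact_mod_cast hvo Q (by simpa using hQ) s hs hs0
      unfold Ev
      linarith
    refine ⟨m * k, by nlinarith, v, by rwa [mul_assoc], fun Q hQ => ?_⟩
    rw [mul_assoc]
    have hm' : (0 : ℚ) ≤ m := Nat.cast_nonneg _
    rcases Finset.mem_insert.1 hQ with h3 | h3
    · refine (hle G' (by simp) hGs'.1 Q hQ).trans ?_
      rw [hG', mul_comm m (k * m₁), ev_pow, h3]
      have h4 := mul_le_mul_of_nonneg_left hg'P.le (Nat.cast_nonneg (α := ℚ) (k * m₁))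
      refine h4.trans (le_of_eq ?_)
      push_cast
      ring
    · refine (hle G (by simp) hGs.1 Q hQ).trans ?_
      rw [hG, ev_pow]
      have h4 := mul_le_mul_of_nonneg_left (hgT Q h3) hm'
      refine h4.trans (le_of_eq ?_)
      push_cast
      ring

end

end Pool.Agent.N110.NV
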