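import Pool.Agent.N110.NV.Cl
import Pool.Agent.N110.QNef
import Pool.Agent.R887.One

/-!
Sections of the multiples of `q L + H` and their fixed part.
-/

set_option autoImplicit false
set_option linter.unusedSectionVars false
set_option linter.overlappingInstances false

open FF Module Pool.Agent.W602.GT Pool.Agent.Y172 Pool.Agent.R887

namespace Pool.Agent.N110.NV

section

variable {K : Type} [Field K] [Algebra ℂ K] {N : ℕ} {y : Fin (N + 1) → K}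
  {lam Hy : Place ℂ K → ℚ}

/-- the order of the section `g` of `m (q L + H)` -/
def Ev (lam Hy : Place ℂ K → ℚ) (q m : ℕ) (g : K) (P : Place ℂ K) : ℚ :=
  P.ord g + m * (q * lam P + Hy P)

/-- the nonzero sections of `m (q L + H)` -/
def Sec (y : Fin (N + 1) → K) (lam Hy : Place ℂ K → ℚ) (q m : ℕ) : Set K :=
  {g | g ≠ 0 ∧ ∀ P, IsPrimeDivisor y P → 0 ≤ Ev lam Hy q m g P}

theorem ev_mul {q m m' : ℕ} {g g' : K} (hg : g ≠ 0) (hg' : g' ≠ 0) (P : Place ℂ K) :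
    Ev lam Hy q (m + m') (g * g') P = Ev lam Hy q m g P + Ev lam Hy q m' g' P := by
  unfold Ev
  rw [P.ord_mul hg hg']
  push_cast
  ring

theorem ev_pow {q m k : ℕ} {g : K} (P : Place ℂ K) :
    Ev lam Hy q (k * m) (g ^ k) P = k * Ev lam Hy q m g P := by
  unfold Ev
  rw [P.ord_pow]
  push_cast
  ring

theorem sec_pow {q m k : ℕ} {g : K} (hg : g ∈ Sec y lam Hy q m) :
    g ^ k ∈ Sec y lam Hy q (k * m) := by
  refine ⟨pow_ne_zero _ hg.1, fun P hP => ?_⟩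
  rw [ev_pow]
  exact mul_nonneg (Nat.cast_nonneg _) (hg.2 P hP)

/-- the fixed part of the divisor `q L + H` -/
def Bs (y : Fin (N + 1) → K) (lam Hy : Place ℂ K → ℚ) (q : ℕ) : Set (Place ℂ K) :=
  {P | IsPrimeDivisor y P ∧ ∃ ε : ℚ, 0 < ε ∧ ∀ m : ℕ, 1 ≤ m → ∀ g ∈ Sec y lam Hy q m,
    ε * m ≤ Ev lam Hy q m g P}

/-- monotonicity of the fixed part -/
theorem bs_mono (hy : NormalModel y) {i : Fin (N + 1)} (hi : y i ≠ 0)
    (hHP : ∀ P l, IsPrimeDivisor y P → Centred y l P → Hy P = P.ord (y i / y l))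
    {q q' : ℕ} (hq : 1 ≤ q) (hqq : q ≤ q') : Bs y lam Hy q ⊆ Bs y lam Hy q' := by
  rintro P ⟨hP, ε, hε, h⟩
  have hq0 : (0 : ℚ) < q := by exact_mod_cast hq
  refine ⟨hP, ε, hε, fun m hm g hg => ?_⟩
  obtain ⟨l, hl⟩ := exists_centred hy P
  have hly : y l / y i ≠ 0 := div_ne_zero hl.1 hi
  obtain ⟨d, rfl⟩ := Nat.exists_eq_add_of_le hqq
  have h0 : g ^ q * (y l / y i) ^ (m * d) ≠ 0 := mul_ne_zero (pow_ne_zero _ hg.1)
    (pow_ne_zero _ hly)
  have h1 : ∀ Q, Ev lam Hy q (m * (q + d)) (g ^ q * (y l / y i) ^ (m * d)) Q =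
      q * Ev lam Hy (q + d) m g Q + (m * d) * (Q.ord (y l / y i) + Hy Q) := by
    intro Q
    unfold Ev
    rw [Q.ord_mul (pow_ne_zero _ hg.1) (pow_ne_zero _ hly), Q.ord_pow, Q.ord_pow]
    push_cast
    ring
  have h2 := h (m * (q + d)) (by nlinarith) (g ^ q * (y l / y i) ^ (m * d)) ⟨h0, fun Q hQ => by
    rw [h1]
    have h3 := (ord_coord hy hi hHP hQ hl.1).1
    refine add_nonneg (mul_nonneg hq0.le (hg.2 Q hQ)) (mul_nonneg (by positivity) (by linarith))⟩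
  rw [h1, ← (ord_coord hy hi hHP hP hl.1).2 hl] at h2
  have h4 : ε * (m * (q + d) : ℕ) ≤ q * Ev lam Hy (q + d) m g P := by linarith
  have h5 : q * (ε * m) ≤ q * Ev lam Hy (q + d) m g P := by
    refine le_trans ?_ h4
    push_cast
    have h6 : (0 : ℚ) ≤ m := Nat.cast_nonneg _
    have h7 : (0 : ℚ) ≤ d := Nat.cast_nonneg _
    nlinarith [mul_nonneg (mul_nonneg hε.le h6) h7]
  exact le_of_mul_le_mul_left h5 hq0

/-- **The classes of the components of the fixed part are linearly independent.** -/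
theorem bs_indep {ρ : ℕ} {c : Place ℂ K → Fin ρ → ℚ} (hc : FiniteClasses y c) {q m₁ : ℕ}
    (hm₁ : 1 ≤ m₁) {g : K} (hg : g ∈ Sec y lam Hy q m₁) :
    LinearIndependent ℚ (fun P : Bs y lam Hy q => c P) := by
  classical
  rw [linearIndependent_iff']
  intro s a ha i0 hi0
  by_contra hne
  -- the relation
  obtain ⟨D, hD⟩ : ∃ D : Place ℂ K → ℚ, D = fun Q => ∑ P ∈ s, if Q = P.1 then a P else 0 :=
    ⟨_, rfl⟩
  have hDf : Fin0 y D := by
    rw [hD]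
    exact Fin0.sum s fun P _ => fin_single P.1 (a P)
  have hD0 : cls y c D = 0 := by
    rw [hD, cls_sum s fun P _ => fin_single P.1 (a P), ← ha]
    exact Finset.sum_congr rfl fun P _ => cls_single P.2.1 (a P)
  have hDs : ∀ P ∈ s, D P.1 = a P := by
    intro P hP
    rw [hD]
    change (∑ P' ∈ s, if P.1 = P'.1 then a P' else 0) = a P
    rw [Finset.sum_eq_single P]
    · rw [if_pos rfl]
    · intro b _ hb
      rw [if_neg fun h => hb (Subtype.ext h).symm]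
    · intro h
      exact absurd hP h
  have hDn : ∀ Q, D Q ≠ 0 → ∃ P ∈ s, P.1 = Q := by
    intro Q hQ
    by_contra hcon
    push Not at hcon
    apply hQ
    rw [hD]
    exact Finset.sum_eq_zero fun P hP => if_neg fun h => hcon P hP h.symm
  obtain ⟨m₂, hm₂, f₁, hf₁, hf₁D⟩ := hc.torsion D hDf hD0
  have hm₂' : (0 : ℚ) < m₂ := by exact_mod_cast hm₂
  -- a function with poles
  obtain ⟨f, hf, hfs, j0, hj0, hj0n⟩ : ∃ f : K, f ≠ 0 ∧
      (∀ Q, IsPrimeDivisor y Q → Q.ord f ≠ 0 → ∃ P ∈ s, P.1 = Q) ∧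
      ∃ j0 ∈ s, j0.1.ord f < 0 := by
    have h1 : ∀ Q, IsPrimeDivisor y Q → Q.ord f₁ ≠ 0 → ∃ P ∈ s, P.1 = Q := by
      intro Q hQ hQ0
      refine hDn Q fun h2 => hQ0 ?_
      have h3 := hf₁D Q hQ
      rw [h2, mul_zero] at h3
      exact_mod_cast h3
    have h2 : i0.1.ord f₁ ≠ 0 := by
      intro h3
      have h4 := hf₁D i0.1 i0.2.1
      rw [h3, hDs i0 hi0] at h4
      have h5 : (m₂ : ℚ) * a i0 = 0 := by
        rw [← h4]
        simp
      rcases mul_eq_zero.1 h5 with h6 | h6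
      · exact hm₂'.ne' h6
      · exact hne h6
    rcases lt_or_gt_of_ne h2 with h3 | h3
    · exact ⟨f₁, hf₁, h1, i0, hi0, h3⟩
    · refine ⟨f₁⁻¹, inv_ne_zero hf₁, fun Q hQ hQ0 => h1 Q hQ fun h4 => hQ0 ?_, i0, hi0, ?_⟩
      · rw [Q.ord_inv, h4, neg_zero]
      · rw [i0.1.ord_inv]
        linarith
  -- bounds
  have hε : ∀ P : Bs y lam Hy q, ∃ ε : ℚ, 0 < ε ∧ ∀ m : ℕ, 1 ≤ m → ∀ g ∈ Sec y lam Hy q m,
    ε * m ≤ Ev lam Hy q m g P.1 := fun P => P.2.2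
  choose ε hε0 hε1 using hε
  obtain ⟨e, he0, he⟩ : ∃ e : ℚ, 0 < e ∧ ∀ P ∈ s, e ≤ ε P := by
    obtain ⟨p0, hp0, h1⟩ := s.exists_min_image ε ⟨j0, hj0⟩
    exact ⟨ε p0, hε0 p0, h1⟩
  obtain ⟨M, hM⟩ : ∃ M : ℚ, ∀ P ∈ s, -(P.1.ord f : ℚ) ≤ M := by
    obtain ⟨p0, hp0, h1⟩ := s.exists_max_image (fun P => -(P.1.ord f : ℚ)) ⟨j0, hj0⟩
    exact ⟨_, h1⟩
  obtain ⟨k, hk⟩ := exists_nat_gt (M / e)
  have hk1 : M < e * (k + 1) := by
    rw [div_lt_iff₀ he0] at hk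
    nlinarith
  -- the greatest power of `f`
  have hex : ∃ t : ℕ, g ^ (k + 1) * f ^ t ∉ Sec y lam Hy q ((k + 1) * m₁) := by
    obtain ⟨t, ht⟩ := exists_nat_gt (Ev lam Hy q ((k + 1) * m₁) (g ^ (k + 1)) j0.1)
    refine ⟨t, fun h1 => ?_⟩
    have h2 := h1.2 j0.1 j0.2.1
    have h3 : Ev lam Hy q ((k + 1) * m₁) (g ^ (k + 1) * f ^ t) j0.1 =
        Ev lam Hy q ((k + 1) * m₁) (g ^ (k + 1)) j0.1 + t * j0.1.ord f := by
      unfold Ev
      rw [j0.1.ord_mul (pow_ne_zero _ hg.1) (pow_ne_zero _ hf), j0.1.ord_pow f t]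
      push_cast
      ring
    rw [h3] at h2
    have h4 : (j0.1.ord f : ℚ) ≤ -1 := by
      have : j0.1.ord f ≤ -1 := by omega
      exact_mod_cast this
    have h5 : (0 : ℚ) ≤ t := Nat.cast_nonneg _
    nlinarith
  have hfind := Nat.find_spec hex
  obtain ⟨t, ht⟩ : ∃ t, t = Nat.find hex := ⟨_, rfl⟩
  rw [← ht] at hfind
  have ht0 : t ≠ 0 := by
    rintro rfl
    apply hfind
    rw [pow_zero, mul_one]
    exact sec_pow hg
  obtain ⟨t', rfl⟩ := Nat.exists_eq_succ_of_ne_zero ht0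
  have hin : g ^ (k + 1) * f ^ t' ∈ Sec y lam Hy q ((k + 1) * m₁) := by
    by_contra hcon
    have := Nat.find_min' hex hcon
    omega
  have h6 : ¬ ∀ P, IsPrimeDivisor y P →
      0 ≤ Ev lam Hy q ((k + 1) * m₁) (g ^ (k + 1) * f ^ (t' + 1)) P := fun h7 =>
    hfind ⟨mul_ne_zero (pow_ne_zero _ hg.1) (pow_ne_zero _ hf), h7⟩
  push Not at h6
  obtain ⟨P, hP, h7⟩ := h6
  have h8 : Ev lam Hy q ((k + 1) * m₁) (g ^ (k + 1) * f ^ (t' + 1)) P =
      Ev lam Hy q ((k + 1) * m₁) (g ^ (k + 1) * f ^ t') P + P.ord f := by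
    unfold Ev
    rw [pow_succ f t', ← mul_assoc, P.ord_mul hin.1 hf]
    push_cast
    ring
  rw [h8] at h7
  have h9 := hin.2 P hP
  have h10 : P.ord f ≠ 0 := by
    intro h11
    rw [h11] at h7
    push_cast at h7
    linarith
  obtain ⟨P', hP', rfl⟩ := hfs P hP h10
  have h12 := hε1 P' ((k + 1) * m₁) (by nlinarith) _ hin
  have h13 := he P' hP'
  have h14 := hM P' hP'
  have h15 : (1 : ℚ) ≤ m₁ := by exact_mod_cast hm₁
  have h16 : e * (k + 1) ≤ ε P' * ((k + 1) * m₁ : ℕ) := by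
    push_cast
    have h17 : (0 : ℚ) ≤ k := Nat.cast_nonneg _
    calc e * (k + 1) ≤ ε P' * (k + 1) := mul_le_mul_of_nonneg_right h13 (by linarith)
      _ ≤ ε P' * ((k + 1) * m₁) := by
        refine mul_le_mul_of_nonneg_left ?_ (hε0 P').le
        nlinarith
  linarith

end

end Pool.Agent.N110.NV
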