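import Pool.Agent.N110.NV.Main

/-!
Divisors `K_X + Δ` which are not pseudo-effective: the Kodaira dimension and the numerical dimension
are `-∞`.
-/

set_option autoImplicit false
set_option linter.unusedSectionVars false
set_option linter.overlappingInstances false

open FF Module Pool.Agent.W602.GT Pool.Agent.Y172 Pool.Agent.R887
open Filter

namespace Pool.Agent.N110.NV

section

variable {K : Type} [Field K] [Algebra ℂ K] {N n : ℕ} {y : Fin (N + 1) → K}

theorem h0_zero {m : ℕ} {D : Place ℂ K → ℚ}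
    (h : ∀ ω : (Fin n → Derivation ℂ K K) → K, IsSection y n m D ω → ω = 0) :
    h0 y n m D = 0 := by
  unfold h0
  have h1 : Submodule.span ℂ {ω : (Fin n → Derivation ℂ K K) → K | IsSection y n m D ω} = ⊥ := by
    rw [Submodule.span_eq_bot]
    exact fun ω hω => h ω hω
  rw [h1]
  exact finrank_bot ℂ _

/-- if `m (K_X + Δ) + A` has sections for arbitrarily large `m`, then `K_X + Δ` is
pseudo-effective -/
theorem psef_of_sections (hy : NormalModel y) (hn : Algebra.trdeg ℂ K = n) {Δ A : Place ℂ K → ℚ}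
    (hA : Effective y A)
    (h : ∀ m₀ : ℕ, ∃ m : ℕ, m₀ ≤ m ∧ ∃ ω : (Fin n → Derivation ℂ K K) → K, ω ≠ 0 ∧
      IsSection y n m (m • Δ + A) ω) : LogPsef y n Δ := by
  intro i hi q hq
  have hess := hy.ess
  obtain ⟨x, E, hx, hE⟩ := exists_crd hn (k := ℂ) (K := K)
  have hfr : IsFrame E := fun F => ⟨fun j => F (x j),
    (Pool.Agent.W73.PG.PULL.expand x hx E hE F).symm⟩
  obtain ⟨c, hcf, hc⟩ := exists_ordc hy hn hx hE
  have hc' : IsDisc y E c := hc
  obtain ⟨Hy, hHy, hHP⟩ := exists_hyp hy hi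
  obtain ⟨f, s, hf, hfs⟩ := dominate hy hA hi hHy hHP
  obtain ⟨m, hm, ω, hω0, hω⟩ := h (q * s + 1)
  have hωE : ω E ≠ 0 := fun h0 => hω0 (pluri_zero hfr hω.1 h0)
  have h1 := (isSection_iff hc' hω.1).1 hω
  obtain ⟨g, hg⟩ : ∃ g, g = (ω E * f) ^ q := ⟨_, rfl⟩
  have hg0 : g ≠ 0 := by
    rw [hg]
    exact pow_ne_zero _ (mul_ne_zero hωE hf)
  refine ⟨m, by omega, frm x (m * q) g, fun h0 => hg0 ?_, frm_pluri x (m * q) g,
    fun P l hP hl => ?_⟩
  · rw [← frm_self hE (m * q) g, h0]
    rfl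
  · rw [hc P hP _ _ (frm_pluri x (m * q) g), frm_self hE]
    right
    have h2 := (h1 P hP).resolve_left hωE
    have h3 := hfs P hP
    rw [Pi.add_apply, Pi.smul_apply, nsmul_eq_mul] at h2
    rw [hg, P.ord_pow, P.ord_mul hωE hf, ← hHP P l hP hl]
    have h4 := hHy.1 P hP
    have h5 : (q : ℚ) * s ≤ m := by
      have : q * s ≤ m := by omega
      exact_mod_cast this
    have h6 : (0 : ℚ) ≤ q := Nat.cast_nonneg q
    have h7 : (q : ℚ) * s * Hy P ≤ m * Hy P := mul_le_mul_of_nonneg_right h5 h4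
    have h8 : (q : ℚ) * (A P) ≤ q * (P.ord f + s * Hy P) := mul_le_mul_of_nonneg_left h3 h6
    have h9 : (q : ℚ) * (-(m * Δ P + A P)) ≤ q * (m * c P + P.ord (ω E)) :=
      mul_le_mul_of_nonneg_left h2 h6
    push_cast
    linarith

theorem not_psef (hy : NormalModel y) (hn : Algebra.trdeg ℂ K = n) {Δ : Place ℂ K → ℚ}
    (h : ¬ LogPsef y n Δ) :
    kodairaDim y n Δ = ⊥ ∧ ∀ A, Effective y A → numericalDim y n Δ A = ⊥ := by
  classical
  have hev : ∀ A, Effective y A → ∃ m₀ : ℕ, ∀ m : ℕ, m₀ ≤ m → h0 y n m (m • Δ + A) = 0 := by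
    intro A hA
    by_contra hcon
    push Not at hcon
    refine h (psef_of_sections hy hn hA fun m₀ => ?_)
    obtain ⟨m, hm, h1⟩ := hcon m₀
    refine ⟨m, hm, ?_⟩
    by_contra h2
    push Not at h2
    exact h1 (h0_zero fun ω hω => by
      by_contra h3
      exact h2 ω h3 hω)
  constructor
  · unfold kodairaDim
    rw [if_pos]
    intro m hm _
    refine h0_zero fun ω hω => ?_
    by_contra hω0
    refine h (psef_of_sections (A := 0) hy hn ⟨fun _ _ => le_rfl, Set.finite_empty.subset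
      (by rintro P ⟨-, h⟩; exact h rfl)⟩ fun m₀ => ?_)
    -- powers of the section
    have hess := hy.ess
    obtain ⟨x, E, hx, hE⟩ := exists_crd hn (k := ℂ) (K := K)
    have hfr : IsFrame E := fun F => ⟨fun j => F (x j),
      (Pool.Agent.W73.PG.PULL.expand x hx E hE F).symm⟩
    obtain ⟨c, hcf, hc⟩ := exists_ordc hy hn hx hE
    have hc' : IsDisc y E c := hc
    have hωE : ω E ≠ 0 := fun h0 => hω0 (pluri_zero hfr hω.1 h0)
    have h1 := (isSection_iff hc' hω.1).1 hω
    refine ⟨m₀ * m, by nlinarith, frm x (m₀ * m) (ω E ^ m₀), fun h0 => ?_, ?_⟩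
    · apply pow_ne_zero m₀ hωE
      rw [← frm_self hE (m₀ * m) (ω E ^ m₀), h0]
      rfl
    · rw [isSection_iff hc' (frm_pluri x _ _), frm_self hE]
      intro P hP
      right
      have h2 := (h1 P hP).resolve_left hωE
      rw [Pi.smul_apply, nsmul_eq_mul] at h2
      rw [add_zero, Pi.smul_apply, nsmul_eq_mul, P.ord_pow]
      have h3 : (0 : ℚ) ≤ m₀ := Nat.cast_nonneg _
      have h4 := mul_le_mul_of_nonneg_left h2 h3
      push_cast
      linarith
  · intro A hA
    obtain ⟨m₀, hm₀⟩ := hev A hA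
    unfold numericalDim
    rw [eq_bot_iff]
    refine limsup_le_of_le (by isBoundedDefault) ?_
    refine Filter.Eventually.filter_mono inf_le_left ?_
    filter_upwards [eventually_ge_atTop (max m₀ 2)] with m hm
    rw [hm₀ m (by omega)]
    have h1 : (0 : ℝ) < Real.log m := Real.log_pos (by
      have : 1 < m := by omega
      exact_mod_cast this)
    rw [Nat.cast_zero, ENNReal.log_zero, EReal.bot_div_of_pos_ne_top (by exact_mod_cast h1)
      (EReal.coe_ne_top _)]

end

end Pool.Agent.N110.NV
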