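import Pool.Agent.N110.NV.Defs
import Mathlib

/-!
Statements of the parts of project NV (helper110).
-/

set_option autoImplicit false

open FF Pool.Agent.W602.GT Pool.Agent.Y172 Pool.Agent.R887

namespace Pool.Agent.N110.NV

/-- (CT) A function of degree at most `D` is a quotient of two sections of `D H`: if for all
`n - 1` pencils `u` of hyperplane sections the degree of `K` over `ℂ(u, g)` is at most `D` then
there is `h ≠ 0` such that `h` and `h g` have poles at most `D H`. -/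
def S_CT : Prop :=
  ∀ (K : Type) [Field K] [Algebra ℂ K] (N n : ℕ) (y : Fin (N + 1) → K), NormalModel y →
    Algebra.trdeg ℂ K = n → 0 < n → ∀ i, y i ≠ 0 → ∀ (g : K) (D : ℕ), g ≠ 0 →
    (∀ u : Fin (n - 1) → K, (∀ a, IsPencil y (u a)) → degreeOver u (fun _ : Fin 1 => g) ≤ D) →
    ∃ h : K, h ≠ 0 ∧ ∀ P l, IsPrimeDivisor y P → Centred y l P →
      0 ≤ P.ord h + D * P.ord (y i / y l) ∧ 0 ≤ P.ord (h * g) + D * P.ord (y i / y l)

/-- (LIM) Let `C` be a closed convex cone in `ℝ ^ ρ` which contains no line, `η ∈ C`, and let the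
vectors `b j` be linearly independent. If `l + s η` is, for arbitrarily small `ε > 0` and some
`s ∈ [0, ε]`, up to an error `ε`, the sum of a nonnegative combination of the `b j` and of `x ∈ C`
with `s' η - x ∈ C` for some `s' ≤ ε`, then `l` is a nonnegative combination of the `b j`. -/
def S_LIM : Prop :=
  ∀ (ρ : ℕ) (C : Set (Fin ρ → ℝ)), IsClosed C → (∀ x ∈ C, ∀ z ∈ C, x + z ∈ C) →
    (∀ x ∈ C, ∀ r : ℝ, 0 ≤ r → r • x ∈ C) → (∀ x ∈ C, -x ∈ C → x = 0) →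
    ∀ η ∈ C, ∀ (ι : Type) [Finite ι] (b : ι → Fin ρ → ℝ), LinearIndependent ℝ b →
    ∀ l : Fin ρ → ℝ,
    (∀ ε : ℝ, 0 < ε → ∃ s : ℝ, 0 ≤ s ∧ s ≤ ε ∧ ∃ s' : ℝ, 0 ≤ s' ∧ s' ≤ ε ∧
      ∃ a : ι → ℝ, (∀ j, 0 ≤ a j) ∧ ∃ x ∈ C, s' • η - x ∈ C ∧
        ‖l + s • η - ∑ᶠ j, a j • b j - x‖ ≤ ε) →
    ∃ a : ι → ℝ, (∀ j, 0 ≤ a j) ∧ l = ∑ᶠ j, a j • b j

/-- (RAT) Vectors in `ℚ ^ ρ` which are linearly independent over `ℚ` are linearly independent over
`ℝ`, and real nonnegative coefficients of a rational combination are rational. -/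
def S_RAT : Prop :=
  ∀ (ρ : ℕ) (ι : Type) [Fintype ι] (b : ι → Fin ρ → ℚ), LinearIndependent ℚ b →
    LinearIndependent ℝ (fun j => fun i => ((b j i : ℚ) : ℝ)) ∧
    ∀ (l : Fin ρ → ℚ) (a : ι → ℝ), (∀ j, 0 ≤ a j) →
      (∀ i, ((l i : ℚ) : ℝ) = ∑ j, a j * ((b j i : ℚ) : ℝ)) →
      ∃ a' : ι → ℚ, (∀ j, 0 ≤ a' j) ∧ l = ∑ j, a' j • b j

end Pool.Agent.N110.NV
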